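import Pool.Agent.Helper84.OX.St

/-!
# Project OX (MP_2c90c1_al): module CHW
-/

set_option autoImplicit false

namespace Pool.Agent.Helper84.OX

open Pool.Agent.Helper96.UT hiding StTOP TopV TopE tht Bd VC EC
open Pool.Agent.Helper96.GU

theorem hCHW : StCHW := by
  classical
  intro α r Z hr
  have hper : ∀ k : ℕ, seg Z.c (0 + (Z.n : ℤ)) k = seg Z.c 0 k := by
    intro k
    unfold seg
    congr 1
    funext j
    rw [add_right_comm, Z.per]
  have c1 : ∀ k : ℕ, io r (seg Z.c 0 k) = sg r Z k := by
    intro k
    induction k using Nat.strong_induction_on with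
    | _ k ih =>
      rcases Nat.lt_or_ge k Z.n with h | h
      · exact (sg_of_lt r Z h).symm
      · obtain ⟨d, rfl⟩ := Nat.exists_eq_add_of_le h
        have hpos := Z.pos
        rw [seg_add, hper, io_append, ← hr, io_r, one_mul, ih d (by omega)]
        have h1 := sg_add_mul r Z (d : ℤ) 1
        rw [one_mul] at h1
        rw [← h1]
        congr 1
        push_cast
        ring
  have c2 : ∀ l : List ℕ, RU (io r (wd Z l)) := by
    intro l
    induction l using List.reverseRecOn with
    | nil => exact RU_nil r
    | append_singleton l k ih =>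
      rw [wd_concat, io_append, c1]
      exact RU_mul_IM2 ih (RU_sg r Z hr k)
  refine ⟨c1, c2, ?_, ?_, ?_⟩
  · intro l k
    rw [← wd_concat]
    exact c2 _
  · intro l
    exact Subgroup.subset_closure ⟨wd Z l, c2 l, by rw [mk_wd]⟩
  · intro y hy
    have h := (tIM2 tIM1 α r).2 y hy
    clear hy
    induction h using Submonoid.closure_induction with
    | mem x hx =>
      obtain ⟨h1, j, rfl⟩ := hx
      have e : (FreeMonoid.toList r).take j = seg Z.c 0 (min j Z.n) := by
        rw [hr]
        rcases le_total j Z.n with h | h
        · rw [take_seg _ _ _ _ h, min_eq_left h]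
        · rw [min_eq_right h, List.take_of_length_le (by simpa using h)]
      refine ⟨[min j Z.n], ?_, ?_⟩
      · rw [e]
        simp [wd]
      · intro k hk
        rw [List.mem_singleton] at hk
        rw [hk, ← c1, ← e]
        exact h1
    | one => exact ⟨[], rfl, by simp⟩
    | mul x y _ _ ihx ihy =>
      obtain ⟨l, h1, h2⟩ := ihx
      obtain ⟨l', h3, h4⟩ := ihy
      refine ⟨l ++ l', by rw [wd_append, io_append, h1, h3], ?_⟩
      intro k hk
      rcases List.mem_append.1 hk with h | h
      · exact h2 k h
      · exact h4 k h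

end Pool.Agent.Helper84.OX
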