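import Pool.Agent.Helper84.OX.St

/-!
# Project OX (MP_2c90c1_al): module FUL
-/

set_option autoImplicit false

namespace Pool.Agent.Helper84.OX

open Pool.Agent.Helper96.UT hiding StTOP TopV TopE tht Bd VC EC
open Pool.Agent.Helper96.GU

theorem hFUL (hETA : StETA) (hQRL : StQRL) (hQAB : StQAB) (hLAQ : StLAQ) (hPRV : StPRV) (hPRE : StPRE)
    (hSPL : StSPL) (hPPL : StPPL) (hPJZ : StPJZ) : StFUL := by
  classical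
  intro α r Z Ω _ X _ _ x₀ v C ρ hX hC
  obtain ⟨η, hη⟩ := hETA α Z X x₀ hX
  obtain ⟨k₀, hk₀⟩ := exists_top η
  have hζ : ∀ k, act x₀ (pre Z.c k) ≤ act x₀ (pre Z.c k₀) := by
    intro k
    by_contra hcon
    have h1 := hη k₀ k (not_le.1 hcon)
    exact absurd (hk₀ k) (not_le.2 h1)
  have hCf := hC.cpx.fix
  have hLf : ∀ y ∈ lf x₀ C, act y Z.s = y := lf_fix hX hCf
  set J : Set (Ω × X) := {y | Jn (EL Z C x₀) (v, x₀) y} with hJ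
  set D₁ : Finset (Ω × X) := (lf x₀ C).filter fun y => y ∈ J with hD₁
  set D₂ : Finset (Ω × X) := (lf x₀ C).filter fun y => y ∉ J with hD₂
  have m1 : ∀ y, y ∈ D₁ ↔ y ∈ lf x₀ C ∧ y ∈ J := fun y => by rw [hD₁, Finset.mem_filter]
  have m2 : ∀ y, y ∈ D₂ ↔ y ∈ lf x₀ C ∧ y ∉ J := fun y => by rw [hD₂, Finset.mem_filter]
  have hcpx := cpx_EC Z (lf x₀ C) hLf
  have hJc : ∀ u ∈ lf x₀ C, ∀ k : ℤ, act u (pre Z.c k) ∈ J ↔ u ∈ J := by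
    intro u hu k
    have h1 := Jn_cell0 Z (EL Z C x₀) (hcpx.sub u hu) k
    exact ⟨fun h => Jn.trans h (Jn.symm h1), fun h => Jn.trans h h1⟩
  have f1 : ∀ u ∈ D₁, act u Z.s = u := fun u hu => hLf u ((m1 u).1 hu).1
  have f2 : ∀ u ∈ D₂, act u Z.s = u := fun u hu => hLf u ((m2 u).1 hu).1
  -- (a)
  have hv : ((v, x₀) : Ω × X) ∈ lf x₀ C := mem_lf.2 ⟨hC.bas, rfl⟩
  have a1 := hLAQ α Z Ω C v hC.cpx hC.hh ⟨v, hC.bas⟩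
  obtain ⟨a2, a2'⟩ := hPRV α Z Ω X x₀ hX C hCf
  obtain ⟨hclo, a3⟩ := hPRE α Z Ω X x₀ hX C hCf
  obtain ⟨a4, a5, a6⟩ := hSPL α Z (Ω × X) (lf x₀ C) D₁ D₂ J hLf hJc m1 m2 (ZV Z C x₀) (ZE Z C x₀)
  rw [card_lf] at a6
  -- (b)
  have b1 := hQRL α Z η (Ω × X) (EC Z D₂) (VC Z D₂) D₂ (ZV Z C x₀) (ZE Z C x₀) hclo (ends_EC Z D₂ f2)
    (cpx_EC Z D₂ f2) (fun u hu k => VC_mem Z D₂ f2 hu k) k₀ hk₀ (fun u hu => a2' k₀ hζ u ((m2 u).1 hu).1)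
    (hPJZ α r Z Ω X x₀ v C ρ hX hC D₂ m2)
  have b2 : (out (EC Z D₁) (ZE Z C x₀)).card + 1 ≤ (out (VC Z D₁) (ZV Z C x₀)).card + D₁.card := by
    omega
  -- paths in the component
  have hp := hPPL α Z (Ω × X) (lf x₀ C) D₁ (v, x₀) hLf m1
  have hVJ : ∀ x ∈ VC Z D₁, x ∈ J := by
    intro x hx
    obtain ⟨u, hu, k, rfl⟩ := (mem_VC' Z D₁ f1 x).1 hx
    exact (hJc u ((m1 u).1 hu).1 k).2 ((m1 u).1 hu).2
  have hjn : ∀ x y : Ω × X, x ∈ J → y ∈ J → Jn (EC Z D₁ : Set ((Ω × X) × α)) x y := by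
    intro x y hx hy
    have h1 : Jn (EL Z C x₀) x y := Jn.trans (Jn.symm hx) hy
    obtain ⟨w, hw1, hw2⟩ := h1
    exact ⟨w, hp w x hx hw1, hw2⟩
  have hv1 : ((v, x₀) : Ω × X) ∈ J := Jn.refl _ _
  -- (c)
  have c1 : ∀ y ∈ J, y ∉ ZV Z C x₀ := by
    intro y hy hyZ
    have c2 := hQRL α Z η (Ω × X) (EC Z D₁) (VC Z D₁) D₁ (ZV Z C x₀) (ZE Z C x₀) hclo (ends_EC Z D₁ f1)
      (cpx_EC Z D₁ f1) (fun u hu k => VC_mem Z D₁ f1 hu k) k₀ hk₀ (fun u hu => a2' k₀ hζ u ((m1 u).1 hu).1)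
      (fun x hx => ⟨y, hyZ, hjn x y (hVJ x hx) hy⟩)
    omega
  refine ⟨?_, ?_⟩
  · intro p hp1
    exact c1 _ ⟨p, hp1, rfl⟩
  · intro q hq1 hq2
    -- (d)
    have d1 : out (VC Z D₁) (ZV Z C x₀) = VC Z D₁ := by
      ext x
      rw [mem_out]
      exact ⟨fun h => h.1, fun h => ⟨h, c1 x (hVJ x h)⟩⟩
    have d2 : out (EC Z D₁) (ZE Z C x₀) = EC Z D₁ := by
      ext e
      rw [mem_out]
      refine ⟨fun h => h.1, fun h => ⟨h, fun hZ => ?_⟩⟩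
      have h1 := (ends_EC Z D₁ f1 e.1 e.2 h).1
      exact c1 _ (hVJ _ h1) (hclo e.1 e.2 hZ).1
    rw [d1, d2] at b2
    have hvD : ((v, x₀) : Ω × X) ∈ D₁ := (m1 _).2 ⟨hv, hv1⟩
    obtain ⟨-, e2⟩ := hQAB α Z (Ω × X) (EC Z D₁) (VC Z D₁) D₁ (v, x₀) (VC_self Z D₁ f1 hvD) (ends_EC Z D₁ f1)
      (cpx_EC Z D₁ f1) (fun u hu k => VC_mem Z D₁ f1 hu k) (fun x hx => hjn _ x hv1 (hVJ x hx))
    have e3 := e2 b2 (v, x₀) q (hp q _ hv1 hq1) hq2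
    have hsub : (EC Z D₁ : Set ((Ω × X) × α)) ⊆ EL Z C x₀ := by
      intro e he
      obtain ⟨u, hu, k, rfl⟩ := (mem_EC' Z D₁ f1 e).1 he
      exact EC_mem Z (lf x₀ C) hLf ((m1 u).1 hu).1 k
    refine Subgroup.closure_mono ?_ e3
    rintro _ ⟨p, hp1, hp2, rfl⟩
    exact ⟨p, InE_mono hsub hp1, ((m1 _).1 hp2).1, rfl⟩

end Pool.Agent.Helper84.OX
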