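import Pool.Agent.Helper84.OX.St

/-!
# Project OX (MP_2c90c1_al): module HFX
-/

set_option autoImplicit false

namespace Pool.Agent.Helper84.OX

open Pool.Agent.Helper96.UT hiding StTOP TopV TopE tht Bd VC EC
open Pool.Agent.Helper96.GU

private theorem hfx_pos (hCHW : StCHW) (hEX2 : StEX2) (hFUL : StFUL) (hUPX : StUPX) {α : Type}
    {r : FreeMonoid (α × Bool)} {Z : Cyc α} {X : Type} [LinearOrder X] [MulAction (FreeGroup α) X] {x₀ : X}
    (hX : HU0 r Z X x₀) (i j : ℕ) (y : IM r) (hy : IsUnit y) (he : sg r Z (i : ℤ) = y * sg r Z (j : ℤ)) :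
    act x₀ (pre Z.c (i : ℤ)) = act x₀ (pre Z.c (j : ℤ)) := by
  classical
  obtain ⟨c1, c2, c3, -, c5⟩ := hCHW α r Z hX.word
  obtain ⟨l, hl, hlu⟩ := c5 y hy
  have h1 : io r (seg Z.c 0 i) = io r (wd Z l ++ seg Z.c 0 j) := by
    rw [io_append, hl, c1, c1, he]
  have h2 : io r (seg Z.c 0 i ++ FreeGroup.invRev (wd Z l ++ seg Z.c 0 j)) = 1 := by
    rw [io_append, h1]
    exact one_IM1 r _ (c3 l j)
  have h3 := fTSC α r Z hX.word _ h2
  have e0 : ∀ k : ℕ, FreeGroup.mk (seg Z.c 0 k) = pre Z.c (k : ℤ) := by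
    intro k
    rw [mk_seg, pre_zero, zero_add]
    simp
  have e : FreeGroup.mk (seg Z.c 0 i ++ FreeGroup.invRev (wd Z l ++ seg Z.c 0 j)) =
      pre Z.c (i : ℤ) * (ch Z l * pre Z.c (j : ℤ))⁻¹ := by
    rw [mk_append, mk_invRev, mk_append, mk_wd, e0, e0]
  rw [e] at h3
  obtain ⟨Ω, iΩ, v, C, ρ, hC, hW, hGv⟩ := hEX2 α r Z hX.word {pre Z.c (i : ℤ) * (ch Z l * pre Z.c (j : ℤ))⁻¹} {l} (by
    intro g hg
    rw [Finset.mem_singleton] at hg
    rw [hg]
    exact h3)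
  have hF := hFUL α r Z Ω X x₀ v C ρ hX.hgt hC
  have hv := hGv _ (Finset.mem_singleton_self _)
  have hCf := hC.cpx.fix
  have hLf : ∀ y ∈ lf x₀ C, act y Z.s = y := lf_fix hX.hgt hCf
  have hcpx := cpx_EC Z (lf x₀ C) hLf
  have hmem : ∀ l' : List ℕ, l' <+: l → act v (ch Z l') ∈ C := fun l' h => hW l (Finset.mem_singleton_self l) l' h
  have hstep : ∀ (u : Ω), u ∈ C → Jn (EL Z C x₀) (v, x₀) (u, x₀) → ∀ k : ℤ,
      Jn (EL Z C x₀) (v, x₀) (act u (pre Z.c k), act x₀ (pre Z.c k)) := by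
    intro u hu h k
    exact Jn.trans h (Jn_cell0 Z (EL Z C x₀) (hcpx.sub (u, x₀) (mem_lf.2 ⟨hu, rfl⟩)) k)
  have hjn : ∀ l' : List ℕ, l' <+: l → Jn (EL Z C x₀) (v, x₀) (act v (ch Z l'), x₀) := by
    intro l'
    induction l' using List.reverseRecOn with
    | nil =>
      intro _
      rw [ch_nil, act_one]
      exact Jn.refl _ _
    | append_singleton l' k ih =>
      intro h
      have h5 : l' <+: l := (List.prefix_append l' [k]).trans h
      have hk : k ∈ l := h.subset (by simp)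
      have h6 := hstep _ (hmem l' h5) (ih h5) (k : ℤ)
      rw [hUPX α r Z X x₀ hX k (hlu k hk), ← act_mul, ← ch_concat] at h6
      exact h6
  have hu := hmem l (List.prefix_refl l)
  have j1 := hstep _ hu (hjn l (List.prefix_refl l)) (j : ℤ)
  have j2 := hstep v hC.bas (Jn.refl _ _) (i : ℤ)
  have hvv : act v (pre Z.c (i : ℤ)) = act (act v (ch Z l)) (pre Z.c (j : ℤ)) := by
    rw [act_mul] at hv
    have h7 := act_inv_eq hv
    rw [inv_inv, act_mul] at h7
    exact h7.symm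
  rcases lt_trichotomy (act x₀ (pre Z.c (i : ℤ))) (act x₀ (pre Z.c (j : ℤ))) with h | h | h
  · exfalso
    obtain ⟨p, hp1, hp2⟩ := j2
    have h8 := hF.top p hp1
    rw [hp2] at h8
    exact h8 ⟨_, hu, j, hvv.symm, h⟩
  · exact h
  · exfalso
    obtain ⟨p, hp1, hp2⟩ := j1
    have h8 := hF.top p hp1
    rw [hp2] at h8
    exact h8 ⟨v, hC.bas, i, hvv, h⟩

theorem hHFX (hCHW : StCHW) (hEX2 : StEX2) (hFUL : StFUL) (hUPX : StUPX) : StHFX := by
  intro α r Z X _ _ x₀ hX h hh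
  have hs := hX.hgt.fix
  unfold Hp at hh
  induction hh using Subgroup.closure_induction with
  | mem x hx =>
    obtain ⟨j, k, u, hu, he, rfl⟩ := hx
    obtain ⟨i, a, hi, rfl⟩ := mod_nat Z j
    obtain ⟨i', a', hi', rfl⟩ := mod_nat Z k
    rw [sg_add_mul, sg_add_mul] at he
    have h1 := hfx_pos hCHW hEX2 hFUL hUPX hX i i' u hu he
    rw [act_mul, act_pre_per hs, h1]
    rw [← act_pre_per hs (i' : ℤ) a']
    exact act_inv_eq rfl
  | one => exact act_one _
  | mul x y _ _ hx hy => rw [act_mul, hx, hy]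
  | inv x _ hx => exact act_inv_eq hx

end Pool.Agent.Helper84.OX
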