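import Pool.Agent.Helper84.OX.St

/-!
# Project OX (MP_2c90c1_al): module HNS
-/

set_option autoImplicit false

namespace Pool.Agent.Helper84.OX

open Pool.Agent.Helper96.UT hiding StTOP TopV TopE tht Bd VC EC
open Pool.Agent.Helper96.GU

theorem hHNS (hEX2 : StEX2) (hFUL : StFUL) (hPTH : StPTH) (hHFX : StHFX) (hLFQ : StLFQ) : StHNS := by
  classical
  intro α r Z X _ _ x₀ hX h hh hN
  obtain ⟨G₀, W₀, hG, hq⟩ := hLFQ α r Z X x₀ hX h hh
  obtain ⟨Ω, iΩ, v, C, ρ, hC, hW, hGv⟩ := hEX2 α r Z hX.word (insert h G₀) W₀ (by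
    intro g hg
    rcases Finset.mem_insert.1 hg with rfl | hg
    · exact hN
    · exact hG g hg)
  have hF := hFUL α r Z Ω X x₀ v C ρ hX.hgt hC
  obtain ⟨q, hq1, hq2⟩ := hq Ω v C hC.cpx.fix (fun l hl => hW l hl l (List.prefix_refl l))
    (fun g hg => hGv g (Finset.mem_insert_of_mem hg))
  have h1 : act (v, x₀) (FreeGroup.mk q) = (v, x₀) := by
    rw [act_prod, hq2]
    simp only
    rw [hGv h (Finset.mem_insert_self _ _), hHFX α r Z X x₀ hX h hh]
  have h2 := hF.nc q hq1 h1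
  rw [hq2] at h2
  exact (hPTH α r Z Ω X x₀ v C ρ hX hC hF).2 h2

end Pool.Agent.Helper84.OX
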