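import Pool.Agent.Helper84.OX.St

/-!
# Project OX: the module PJZ
-/

set_option autoImplicit false

namespace Pool.Agent.Helper84.OX

open Pool.Agent.Helper96.UT hiding StTOP TopV TopE tht Bd VC EC
open Pool.Agent.Helper96.GU

theorem hPJZ : StPJZ := by
  intro α r Z Ω _ X _ _ x₀ v C ρ hX hC D₂ hD₂
  have hCf : ∀ u ∈ C, act u Z.s = u := hC.cpx.fix
  have hlf : ∀ y ∈ lf x₀ C, act y Z.s = y := lf_fix hX hCf
  have hDf : ∀ y ∈ D₂, act y Z.s = y := fun y hy => hlf y ((hD₂ y).1 hy).1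
  have hcell : ∀ y ∈ D₂, CE Z y ⊆ (EC Z D₂ : Set ((Ω × X) × α)) := (cpx_EC Z D₂ hDf).sub
  have hcell' : ∀ y ∈ lf x₀ C, CE Z y ⊆ EL Z C x₀ := (cpx_EC Z (lf x₀ C) hlf).sub
  have key : ∀ n : ℕ, ∀ u : Ω, ρ u = n → (u, x₀) ∈ D₂ →
      JnZ (EC Z D₂ : Set ((Ω × X) × α)) (ZV Z C x₀) (u, x₀) := by
    intro n
    induction n using Nat.strong_induction_on with
    | _ n ih =>
      intro u hn hu
      obtain ⟨hu1, hu2⟩ := (hD₂ _).1 hu
      have huC : u ∈ C := (mem_lf.1 hu1).1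
      rcases hC.chn u huC with rfl | ⟨u', hu', k, hρ, hk⟩
      · exact absurd (Jn.refl _ _) hu2
      · rcases (hX.low k).lt_or_eq with hlt | heq
        · exact ⟨(u, x₀), ⟨u', hu', k, hk, hlt⟩, Jn.refl _ _⟩
        · have e1 : act (u', x₀) (pre Z.c k) = (u, x₀) := by
            rw [act_prod]
            simp only
            rw [hk, ← heq]
          have hu'l : (u', x₀) ∈ lf x₀ C := mem_lf.2 ⟨hu', rfl⟩
          have j1 := Jn_cell0 Z (EL Z C x₀) (hcell' _ hu'l) k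
          rw [e1] at j1
          have hu'D : (u', x₀) ∈ D₂ := (hD₂ _).2 ⟨hu'l, fun h => hu2 (Jn.trans h j1)⟩
          obtain ⟨y, hy, hj⟩ := ih (ρ u') (hn ▸ hρ) u' rfl hu'D
          have j2 := Jn_cell0 Z _ (hcell _ hu'D) k
          rw [e1] at j2
          exact ⟨y, hy, Jn.trans (Jn.symm j2) hj⟩
  intro x hx
  obtain ⟨⟨u, z⟩, hy, k, rfl⟩ := (mem_VC' Z D₂ hDf x).1 hx
  have hz : z = x₀ := (mem_lf.1 ((hD₂ _).1 hy).1).2
  subst hz
  obtain ⟨y, hy', hj⟩ := key _ u rfl hy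
  exact ⟨y, hy', Jn.trans (Jn.symm (Jn_cell0 Z _ (hcell _ hy) k)) hj⟩

end Pool.Agent.Helper84.OX
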