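import Pool.Agent.Helper84.OX.St

/-!
# Project OX: the module PRE
-/

set_option autoImplicit false

namespace Pool.Agent.Helper84.OX

open Pool.Agent.Helper96.UT hiding StTOP TopV TopE tht Bd VC EC
open Pool.Agent.Helper96.GU

theorem tl_other_PRE {α : Type} (Z : Cyc α) (k : ℤ) :
    ∃ k' : ℤ, pre Z.c (tl Z k) * lt ((Z.c k).1, true) = pre Z.c k' := by
  unfold tl
  rcases hc : Z.c k with ⟨a, b⟩
  cases b
  · refine ⟨k, ?_⟩
    simp only [Bool.false_eq_true, if_false]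
    have h2 := pre_succ Z.c k
    rw [hc] at h2
    have h1 : ((a, true) : α × Bool) = bar (a, false) := rfl
    rw [h2, mul_assoc, h1, lt_bar, mul_inv_cancel, mul_one]
  · refine ⟨k + 1, ?_⟩
    simp only [if_true]
    have h2 := pre_succ Z.c k
    rw [hc] at h2
    exact h2.symm

theorem mem_EL_PRE {α : Type} {Z : Cyc α} {Ω : Type} [MulAction (FreeGroup α) Ω] {X : Type} [LinearOrder X]
    [MulAction (FreeGroup α) X] {x₀ : X} (hX : Hgt Z X x₀) {C : Finset Ω} (hC : ∀ u ∈ C, act u Z.s = u)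
    (e : (Ω × X) × α) : e ∈ EC Z (lf x₀ C) ↔
      ∃ u ∈ C, ∃ k : ℤ, ((act u (pre Z.c (tl Z k)), act x₀ (pre Z.c (tl Z k))), (Z.c k).1) = e := by
  rw [mem_EC' Z (lf x₀ C) (lf_fix hX hC)]
  constructor
  · rintro ⟨⟨u, x⟩, hu, k, rfl⟩
    obtain ⟨h1, h2⟩ := mem_lf.1 hu
    simp only at h1 h2
    refine ⟨u, h1, k, ?_⟩
    rw [ed_tl, act_prod, h2]
  · rintro ⟨u, hu, k, rfl⟩
    refine ⟨(u, x₀), mem_lf.2 ⟨hu, rfl⟩, k, ?_⟩
    rw [ed_tl, act_prod]

theorem hPRE : StPRE := by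
  intro α Z Ω _ X _ _ x₀ hX C hC
  classical
  constructor
  · rintro ⟨x, z⟩ a ⟨u, hu, k, h1, h2⟩
    simp only at h1 h2
    rw [ed_tl] at h1
    obtain ⟨e1, e2⟩ := Prod.mk.inj h1
    refine ⟨⟨u, hu, tl Z k, e1, h2⟩, ?_⟩
    obtain ⟨k', hk'⟩ := tl_other_PRE Z k
    refine ⟨u, hu, k', ?_, ?_⟩
    · rw [act_prod]
      simp only
      rw [← hk', act_mul, e1, e2]
    · rw [act_prod]
      simp only
      rw [← hk', act_mul, e2]
      exact hX.lt h2 _
  · refine Finset.card_nbij (fun e => (e.1.1, e.2)) ?_ ?_ ?_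
    · intro e he
      obtain ⟨h1, -⟩ := mem_out.1 he
      obtain ⟨u, hu, k, rfl⟩ := (mem_EL_PRE hX hC e).1 h1
      exact (mem_EC' Z C hC _).2 ⟨u, hu, k, ed_tl Z u k⟩
    · intro e he e' he' hee
      obtain ⟨h1, h1'⟩ := mem_out.1 (Finset.mem_coe.1 he)
      obtain ⟨h2, h2'⟩ := mem_out.1 (Finset.mem_coe.1 he')
      obtain ⟨u, hu, k, rfl⟩ := (mem_EL_PRE hX hC e).1 h1
      obtain ⟨u', hu', k', rfl⟩ := (mem_EL_PRE hX hC e').1 h2
      simp only [Prod.mk.injEq] at hee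
      obtain ⟨g1, g2⟩ := hee
      rcases lt_trichotomy (act x₀ (pre Z.c (tl Z k))) (act x₀ (pre Z.c (tl Z k'))) with h | h | h
      · exfalso
        refine h1' ⟨u', hu', k', ?_, h⟩
        rw [ed_tl]
        simp only
        rw [g1, g2]
      · rw [g1, g2, h]
      · exfalso
        refine h2' ⟨u, hu, k, ?_, h⟩
        rw [ed_tl]
        simp only
        rw [g1, g2]
    · rintro ⟨w, a⟩ hw
      have hw' : (w, a) ∈ EC Z C := Finset.mem_coe.1 hw
      obtain ⟨u₁, hu₁, k₁, h₁⟩ := (mem_EC' Z C hC _).1 hw'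
      obtain ⟨i₁, q₁, hi₁, rfl⟩ := mod_nat Z k₁
      rw [act_pre_per (hC u₁ hu₁), Z.per_mul] at h₁
      let S : Finset (Ω × ℕ) := (C ×ˢ Finset.range Z.n).filter fun p =>
        ed (act p.1 (pre Z.c (p.2 : ℤ))) (Z.c (p.2 : ℤ)) = (w, a)
      have hS : S.Nonempty := ⟨(u₁, i₁), Finset.mem_filter.2
        ⟨Finset.mem_product.2 ⟨hu₁, Finset.mem_range.2 hi₁⟩, h₁⟩⟩
      obtain ⟨⟨u, i⟩, hui, hmax⟩ := Finset.exists_max_image S
        (fun p : Ω × ℕ => act x₀ (pre Z.c (tl Z (p.2 : ℤ)))) hS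
      obtain ⟨hui1, hui2⟩ := Finset.mem_filter.1 hui
      have hu : u ∈ C := (Finset.mem_product.1 hui1).1
      simp only at hui2 hmax
      rw [ed_tl] at hui2
      obtain ⟨g1, g2⟩ := Prod.mk.inj hui2
      refine ⟨((w, act x₀ (pre Z.c (tl Z (i : ℤ)))), a), ?_, rfl⟩
      refine Finset.mem_coe.2 (mem_out.2 ⟨?_, ?_⟩)
      · refine (mem_EL_PRE hX hC _).2 ⟨u, hu, i, ?_⟩
        rw [g1, g2]
      · rintro ⟨u', hu', k', h1, h2⟩
        simp only at h1 h2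
        obtain ⟨j, q, hj, rfl⟩ := mod_nat Z k'
        rw [act_pre_per (hC u' hu'), Z.per_mul] at h1
        rw [tl_add_mul, act_pre_per hX.fix] at h2
        have h3 := hmax (u', j) (Finset.mem_filter.2
          ⟨Finset.mem_product.2 ⟨hu', Finset.mem_range.2 hj⟩, h1⟩)
        simp only at h3
        exact absurd h2 (not_lt.2 h3)

end Pool.Agent.Helper84.OX
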