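import Pool.Agent.Helper84.OX.St

/-!
# Project OX (MP_2c90c1_al): modules UNB, INC, PTH
-/

set_option autoImplicit false

namespace Pool.Agent.Helper84.OX

open Pool.Agent.Helper96.UT hiding StTOP TopV TopE tht Bd VC EC
open Pool.Agent.Helper96.GU

private theorem mk_seg0 {α : Type} (Z : Cyc α) (k : ℕ) : FreeGroup.mk (seg Z.c 0 k) = pre Z.c (k : ℤ) := by
  rw [mk_seg, pre_zero, zero_add]
  simp

theorem hUNB (hCHW : StCHW) : StUNB := by
  intro α r Z Ω _ X _ _ x₀ v C ρ hX hC hF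
  obtain ⟨c1, -, -, -, -⟩ := hCHW α r Z hX.word
  have hCf := hC.cpx.fix
  have hLf : ∀ y ∈ lf x₀ C, act y Z.s = y := lf_fix hX.hgt hCf
  have hcpx := cpx_EC Z (lf x₀ C) hLf
  suffices H : ∀ (m : ℕ) (u : Ω), ρ u ≤ m → u ∈ C → Jn (EL Z C x₀) (v, x₀) (u, x₀) →
      ∃ p : List (α × Bool), InE (EC Z C : Set (Ω × α)) v p ∧ act v (FreeGroup.mk p) = u ∧ IsUnit (io r p) from
    fun u hu hj => H (ρ u) u le_rfl hu hj
  intro m
  induction m with
  | zero =>
    intro u hm hu hj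
    rcases hC.chn u hu with rfl | ⟨u', hu', k, hlt, -⟩
    · exact ⟨[], trivial, by rw [mk_nil, act_one], by rw [io_nil]; exact isUnit_one⟩
    · omega
  | succ m ih =>
    intro u hm hu hj
    rcases hC.chn u hu with rfl | ⟨u', hu', k, hlt, hk⟩
    · exact ⟨[], trivial, by rw [mk_nil, act_one], by rw [io_nil]; exact isUnit_one⟩
    · have hz : act x₀ (pre Z.c k) = x₀ := by
        by_contra hne
        have h4 : x₀ < act x₀ (pre Z.c k) := lt_of_le_of_ne (hX.hgt.low k) (Ne.symm hne)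
        obtain ⟨p, hp1, hp2⟩ := hj
        have h8 := hF.top p hp1
        rw [hp2] at h8
        exact h8 ⟨u', hu', k, hk, h4⟩
      have hunit := hX.unit k hz
      have hj' : Jn (EL Z C x₀) (v, x₀) (u', x₀) := by
        have h5 := Jn_cell0 Z (EL Z C x₀) (hcpx.sub (u', x₀) (mem_lf.2 ⟨hu', rfl⟩)) k
        rw [act_prod] at h5
        simp only at h5
        rw [hk, hz] at h5
        exact Jn.trans hj (Jn.symm h5)
      obtain ⟨p', h1, h2, h3⟩ := ih u' (by omega) hu' hj'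
      obtain ⟨i, a, hi, rfl⟩ := mod_nat Z k
      rw [act_pre_per (hCf u' hu')] at hk
      rw [sg_add_mul] at hunit
      refine ⟨p' ++ seg Z.c 0 i, ?_, ?_, ?_⟩
      · rw [InE_append, h2]
        refine ⟨h1, ?_⟩
        have h6 := InE_cell Z u' 0 i
        rw [pre_zero, act_one] at h6
        exact InE_mono (hC.cpx.sub u' hu') h6
      · rw [mk_append, act_mul, h2, mk_seg0, hk]
      · rw [io_append, c1]
        exact h3.mul hunit

theorem hINC (hCHW : StCHW) (hUNB : StUNB) : StINC := by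
  intro α r Z Ω _ X _ _ x₀ v C ρ hX hC hF u hu u' hu' hj hj' k k' hkk
  obtain ⟨c1, -, -, -, -⟩ := hCHW α r Z hX.word
  have hCf := hC.cpx.fix
  obtain ⟨p, p1, p2, p3⟩ := hUNB α r Z Ω X x₀ v C ρ hX hC hF u hu hj
  obtain ⟨p', q1, q2, q3⟩ := hUNB α r Z Ω X x₀ v C ρ hX hC hF u' hu' hj'
  obtain ⟨i, a, hi, rfl⟩ := mod_nat Z k
  obtain ⟨i', a', hi', rfl⟩ := mod_nat Z k'
  rw [act_pre_per (hCf u hu), act_pre_per (hCf u' hu')] at hkk
  have key : ∀ (w : Ω) (p : List (α × Bool)) (i : ℕ), w ∈ C → InE (EC Z C : Set (Ω × α)) v p →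
      act v (FreeGroup.mk p) = w → InE (EC Z C : Set (Ω × α)) v (p ++ seg Z.c 0 i) ∧
        act v (FreeGroup.mk (p ++ seg Z.c 0 i)) = act w (pre Z.c (i : ℤ)) := by
    intro w p i hw h1 h2
    refine ⟨?_, ?_⟩
    · rw [InE_append, h2]
      refine ⟨h1, ?_⟩
      have h6 := InE_cell Z w 0 i
      rw [pre_zero, act_one] at h6
      exact InE_mono (hC.cpx.sub w hw) h6
    · rw [mk_append, act_mul, h2, mk_seg0]
  obtain ⟨a1, a2⟩ := key u p i hu p1 p2
  obtain ⟨b1, b2⟩ := key u' p' i' hu' q1 q2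
  have h1 := fVUQ α r Z hX.word Ω v (EC Z C : Set (Ω × α)) hC.ov _ _ a1 b1 (by rw [a2, b2, hkk])
  rw [io_append, io_append, c1, c1] at h1
  obtain ⟨y, hy⟩ := p3
  obtain ⟨y', hy'⟩ := q3
  rw [← hy, ← hy'] at h1
  refine Subgroup.subset_closure ⟨_, _, ((y⁻¹ * y' : (IM r)ˣ) : IM r), (y⁻¹ * y').isUnit, ?_, rfl⟩
  rw [sg_add_mul, sg_add_mul, Units.val_mul, mul_assoc, ← h1, ← mul_assoc, Units.inv_mul, one_mul]

theorem hPTH (hINC : StINC) : StPTH := by
  intro α r Z Ω _ X _ _ x₀ v C ρ hX hC hF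
  have hCf := hC.cpx.fix
  have hLf : ∀ y ∈ lf x₀ C, act y Z.s = y := lf_fix hX.hgt hCf
  have hcpx := cpx_EC Z (lf x₀ C) hLf
  have hcell : ∀ (u : Ω), u ∈ C → ∀ (k : ℤ) (p : List (α × Bool)), InE (EL Z C x₀) (v, x₀) p →
      act (u, x₀) (pre Z.c k) = act (v, x₀) (FreeGroup.mk p) → Jn (EL Z C x₀) (v, x₀) (u, x₀) := by
    intro u hu k p hp he
    have h5 := Jn_cell0 Z (EL Z C x₀) (hcpx.sub (u, x₀) (mem_lf.2 ⟨hu, rfl⟩)) k
    rw [he] at h5
    exact Jn.trans ⟨p, hp, rfl⟩ (Jn.symm h5)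
  have main : ∀ p : List (α × Bool), InE (EL Z C x₀) (v, x₀) p → ∀ u ∈ C, ∀ k : ℤ,
      act (u, x₀) (pre Z.c k) = act (v, x₀) (FreeGroup.mk p) → FreeGroup.mk p * (pre Z.c k)⁻¹ ∈ Hp r Z := by
    intro p
    induction p using List.reverseRecOn with
    | nil =>
      intro hp u hu k he
      have hj := hcell u hu k [] hp he
      rw [mk_nil, act_one] at he
      have h1 : act v (pre Z.c 0) = act u (pre Z.c k) := by
        rw [pre_zero, act_one]
        have := congrArg Prod.fst he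
        exact this.symm
      have h2 := hINC α r Z Ω X x₀ v C ρ hX hC hF v hC.bas u hu (Jn.refl _ _) hj 0 k h1
      rw [pre_zero] at h2
      rw [mk_nil]
      exact h2
    | append_singleton p x ih =>
      intro hp u hu k he
      have hj := hcell u hu k _ hp he
      have hp' := (InE_append _ _ _ _).1 hp
      have hlast : ed (act (v, x₀) (FreeGroup.mk p)) x ∈ EC Z (lf x₀ C) := hp'.2.1
      obtain ⟨⟨u₁, z⟩, hu₁, k₁, hk₁⟩ := (mem_EC' Z (lf x₀ C) hLf _).1 hlast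
      obtain ⟨hu1, hz⟩ := mem_lf.1 hu₁
      simp only at hu1 hz
      subst hz
      have e1 : FreeGroup.mk (p ++ [x]) = FreeGroup.mk p * lt x := by rw [mk_append]; rfl
      -- it is enough to know one position of the end point on the cell `u₁`
      have fin : ∀ k₂ : ℤ, act (u₁, z) (pre Z.c k₂) = act (v, z) (FreeGroup.mk (p ++ [x])) →
          FreeGroup.mk (p ++ [x]) * (pre Z.c k₂)⁻¹ ∈ Hp r Z →
          FreeGroup.mk (p ++ [x]) * (pre Z.c k)⁻¹ ∈ Hp r Z := by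
        intro k₂ h1 h2
        have hj₁ := hcell u₁ hu1 k₂ _ hp h1
        have h3 : act u₁ (pre Z.c k₂) = act u (pre Z.c k) := by
          have h4 := h1.trans he.symm
          exact congrArg Prod.fst h4
        have h4 := hINC α r Z Ω X z v C ρ hX hC hF u₁ hu1 u hu hj₁ hj k₂ k h3
        have h5 := (Hp r Z).mul_mem h2 h4
        have e : FreeGroup.mk (p ++ [x]) * (pre Z.c k₂)⁻¹ * (pre Z.c k₂ * (pre Z.c k)⁻¹) =
            FreeGroup.mk (p ++ [x]) * (pre Z.c k)⁻¹ := by group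
        rw [e] at h5
        exact h5
      rcases ed_eq hk₁ with ⟨h1, h2⟩ | ⟨h1, h2⟩
      · refine fin (k₁ + 1) ?_ ?_
        · rw [e1, act_mul, h1, h2, act_pre_succ]
        · have h3 := ih hp'.1 u₁ hu1 k₁ h1.symm
          rw [e1, h2, pre_succ]
          have e : FreeGroup.mk p * lt (Z.c k₁) * (pre Z.c k₁ * lt (Z.c k₁))⁻¹ =
              FreeGroup.mk p * (pre Z.c k₁)⁻¹ := by group
          rw [e]
          exact h3
      · rw [act_pre_succ] at h1
        refine fin k₁ ?_ ?_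
        · rw [e1, act_mul, h1, h2, lt_bar, ← act_pre_succ]
          exact (act_inv_eq rfl).symm
        · have h3 := ih hp'.1 u₁ hu1 (k₁ + 1) h1.symm
          rw [e1, h2, lt_bar]
          rw [pre_succ] at h3
          have e : FreeGroup.mk p * (lt (Z.c k₁))⁻¹ * (pre Z.c k₁)⁻¹ =
              FreeGroup.mk p * (pre Z.c k₁ * lt (Z.c k₁))⁻¹ := by group
          rw [e]
          exact h3
  refine ⟨main, ?_⟩
  refine Subgroup.closure_mono ?_
  rintro _ ⟨p, hp1, hp2, rfl⟩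
  refine ⟨FreeGroup.mk p, ?_, rfl⟩
  obtain ⟨h1, h2⟩ := mem_lf.1 hp2
  have h3 := main p hp1 _ h1 0 (by
    rw [pre_zero, act_one]
    exact Prod.ext rfl h2.symm)
  rw [pre_zero, inv_one, mul_one] at h3
  exact h3

end Pool.Agent.Helper84.OX
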