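import Pool.Agent.Helper84.OX.St

/-!
# Project OX (MP_2c90c1_al): module UPX
-/

set_option autoImplicit false

namespace Pool.Agent.Helper84.OX

open Pool.Agent.Helper96.UT hiding StTOP TopV TopE tht Bd VC EC
open Pool.Agent.Helper96.GU

theorem hUPX (hCHW : StCHW) (hEX2 : StEX2) (hFUL : StFUL) : StUPX := by
  classical
  intro α r Z X _ _ x₀ hX k hk
  obtain ⟨c1, -, -, -, c5⟩ := hCHW α r Z hX.word
  obtain ⟨i, a, hi, rfl⟩ := mod_nat Z k
  rw [act_pre_per hX.hgt.fix]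
  rw [sg_add_mul] at hk
  obtain ⟨y, hy⟩ := hk
  obtain ⟨l, hl, -⟩ := c5 ((y⁻¹ : (IM r)ˣ) : IM r) (y⁻¹).isUnit
  have h1 : io r (wd Z l ++ seg Z.c 0 i) = 1 := by
    rw [io_append, hl, c1, ← hy, Units.inv_mul]
  have h2 := fTSC α r Z hX.word _ h1
  have e : FreeGroup.mk (wd Z l ++ seg Z.c 0 i) = ch Z l * pre Z.c (i : ℤ) := by
    rw [mk_append, mk_wd, mk_seg, pre_zero, zero_add]
    simp
  rw [e] at h2
  obtain ⟨Ω, iΩ, v, C, ρ, hC, hW, hGv⟩ := hEX2 α r Z hX.word {ch Z l * pre Z.c (i : ℤ)} {l} (by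
    intro g hg
    rw [Finset.mem_singleton] at hg
    rw [hg]
    exact h2)
  have hF := hFUL α r Z Ω X x₀ v C ρ hX.hgt hC
  have hu := hW l (Finset.mem_singleton_self l) l (List.prefix_refl l)
  have hv := hGv _ (Finset.mem_singleton_self _)
  rw [act_mul] at hv
  have h3 := hF.top [] trivial
  rw [mk_nil, act_one] at h3
  by_contra hne
  have h4 : x₀ < act x₀ (pre Z.c (i : ℤ)) := lt_of_le_of_ne (hX.hgt.low i) (Ne.symm hne)
  exact h3 ⟨act v (ch Z l), hu, i, hv, h4⟩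

end Pool.Agent.Helper84.OX
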