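import Pool.Agent.Helper84.OX.Main
import Pool.Agent.Helper84.OX.M_FUL
import Pool.Agent.Helper84.OX.M_HNS
import Pool.Agent.Helper84.OX.M_UPX
import Pool.Agent.Helper84.OX.M_HFX
import Pool.Agent.Helper84.OX.M_UNB
import Pool.Agent.Helper84.OX.M_CHW
import Pool.Agent.Helper84.OX.M_PRE
import Pool.Agent.Helper5.OX.M_STP
import Pool.Agent.Helper25.OX.M_QAB
import Pool.Agent.Helper25.OX.M_LFQ
import Pool.Agent.Helper63.OX.M_CNR
import Pool.Agent.Helper63.OX.M_EX2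
import Pool.Agent.Helper63.OX.M_PRV
import Pool.Agent.Helper39.OX.M_LR1
import Pool.Agent.Helper39.OX.M_LAQ
import Pool.Agent.Helper39.OX.M_PPL
import Pool.Agent.Helper21.OX.M_ETA
import Pool.Agent.Helper18.OX.M_SPL
import Pool.Agent.Helper64.OX.M_LR0
import Pool.Agent.Helper64.OX.M_QRL
import Pool.Agent.Helper84.OX.M_PJZ

/-!
# Project OX: all modules together
-/

set_option autoImplicit false

namespace Pool.Agent.Helper84.OX

open Pool.Agent.Helper96.UT hiding StTOP TopV TopE tht Bd VC EC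
open Pool.Agent.Helper96.GU

theorem aCHW : StCHW := hCHW

theorem aSTP : StSTP := Pool.Agent.Helper5.OX.hSTP

theorem aEX2 : StEX2 := Pool.Agent.Helper63.OX.hEX2 aCHW aSTP

theorem aLR0 : StLR0 := Pool.Agent.Helper64.OX.hLR0

theorem aLR1 : StLR1 := Pool.Agent.Helper39.OX.pLR1

theorem aCNR : StCNR := Pool.Agent.Helper63.OX.hCNR

theorem aQRL : StQRL := Pool.Agent.Helper64.OX.hQRL aLR0 aCNR

theorem aQAB : StQAB := Pool.Agent.Helper25.OX.hQAB aLR0 aLR1 aCNR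

theorem aFUL : StFUL :=
  hFUL Pool.Agent.Helper21.OX.hETA aQRL aQAB Pool.Agent.Helper39.OX.pLAQ Pool.Agent.Helper63.OX.hPRV hPRE
    Pool.Agent.Helper18.OX.hSPL Pool.Agent.Helper39.OX.pPPL hPJZ

theorem aUPX : StUPX := hUPX aCHW aEX2 aFUL

theorem aHFX : StHFX := hHFX aCHW aEX2 aFUL aUPX

theorem aUNB : StUNB := hUNB aCHW

theorem aPTH : StPTH := hPTH (hINC aCHW aUNB)

theorem aLFQ : StLFQ := Pool.Agent.Helper25.OX.hLFQ aCHW aHFX

theorem aHNS : StHNS := hHNS aEX2 aFUL aPTH aHFX aLFQ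

end Pool.Agent.Helper84.OX
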