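import Pool.Agent.Helper96.GU.MaxF

/-!
# Project OX (MP_2c90c1_al): ordered heights

THEOREM.  Let `r` be cyclically reduced and let the free group `F(A)` act by order automorphisms on a totally ordered
set `X` with a point `x₀` such that `r x₀ = x₀` and `p x₀ ≥ x₀` for every initial part `p` of `r`, with equality only if
`p` is invertible in `Inv⟨A | r = 1⟩`.  Then the group of units of `Inv⟨A | r = 1⟩` is a one-relator group.

Definitions and elementary lemmas (all proved).  We use the conventions and the library of the projects UT, GU and GF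
(`Pool/Agent/Helper96/UT/Defs.lean`, `Pool/Agent/Helper96/GU/Defs.lean`, `Pool/Agent/Helper96/GU/DefsF.lean`).
-/

set_option autoImplicit false

namespace Pool.Agent.Helper84.OX

open Pool.Agent.Helper96.UT hiding StTOP TopV TopE tht Bd VC EC
open Pool.Agent.Helper96.GU

variable {α : Type}

/-- The product of the initial parts of `s` of the lengths `k ∈ l`. -/
def ch (Z : Cyc α) (l : List ℕ) : FreeGroup α := (l.map fun k : ℕ => pre Z.c (k : ℤ)).prod

/-- The corresponding word. -/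
def wd (Z : Cyc α) (l : List ℕ) : List (α × Bool) := (l.map fun k : ℕ => seg Z.c 0 k).flatten

theorem ch_nil (Z : Cyc α) : ch Z [] = 1 := rfl

theorem ch_append (Z : Cyc α) (l l' : List ℕ) : ch Z (l ++ l') = ch Z l * ch Z l' := by
  simp [ch]

theorem ch_concat (Z : Cyc α) (l : List ℕ) (k : ℕ) : ch Z (l ++ [k]) = ch Z l * pre Z.c (k : ℤ) := by
  rw [ch_append]
  simp [ch]

theorem wd_nil (Z : Cyc α) : wd Z [] = [] := rfl

theorem wd_append (Z : Cyc α) (l l' : List ℕ) : wd Z (l ++ l') = wd Z l ++ wd Z l' := by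
  simp [wd]

theorem wd_concat (Z : Cyc α) (l : List ℕ) (k : ℕ) : wd Z (l ++ [k]) = wd Z l ++ seg Z.c 0 k := by
  rw [wd_append]
  simp [wd]

theorem mk_wd (Z : Cyc α) (l : List ℕ) : FreeGroup.mk (wd Z l) = ch Z l := by
  induction l using List.reverseRecOn with
  | nil => rfl
  | append_singleton l k ih =>
    rw [wd_concat, ch_concat, mk_append, ih, mk_seg, pre_zero, zero_add]
    simp

/-- The height function: a totally ordered set with an action by order automorphisms and a base point. -/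
structure Hgt (Z : Cyc α) (X : Type) [LinearOrder X] [MulAction (FreeGroup α) X] (x₀ : X) : Prop where
  mono : ∀ (x y : X) (g : FreeGroup α), x ≤ y → act x g ≤ act y g
  fix : act x₀ Z.s = x₀
  low : ∀ k : ℤ, x₀ ≤ act x₀ (pre Z.c k)

theorem Hgt.lt {Z : Cyc α} {X : Type} [LinearOrder X] [MulAction (FreeGroup α) X] {x₀ : X} (h : Hgt Z X x₀)
    {x y : X} (hxy : x < y) (g : FreeGroup α) : act x g < act y g :=
  lt_of_le_of_ne (h.mono x y g hxy.le) fun he => hxy.ne (act_inj he)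

/-! ### Relative graphs -/

section rel

variable {Ω : Type} [MulAction (FreeGroup α) Ω]

/-- The edges in `Ze` have their ends in `Zv`. -/
def Clo (Zv : Set Ω) (Ze : Set (Ω × α)) : Prop :=
  ∀ (x : Ω) (a : α), (x, a) ∈ Ze → x ∈ Zv ∧ act x (lt (a, true)) ∈ Zv

/-- The edges in `E` have their ends in `V`. -/
def Ends (E : Finset (Ω × α)) (V : Finset Ω) : Prop :=
  ∀ (x : Ω) (a : α), (x, a) ∈ E → x ∈ V ∧ act x (lt (a, true)) ∈ V

open Classical in
/-- The elements of `V` outside `Zv`. -/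
noncomputable def out {T : Type} (V : Finset T) (Zv : Set T) : Finset T := V.filter fun x => x ∉ Zv

theorem mem_out {T : Type} {V : Finset T} {Zv : Set T} {x : T} : x ∈ out V Zv ↔ x ∈ V ∧ x ∉ Zv := by
  classical
  unfold out
  rw [Finset.mem_filter]

/-- `x` is joined to `Zv` by a path in `E`. -/
def JnZ (E : Set (Ω × α)) (Zv : Set Ω) (x : Ω) : Prop := ∃ y ∈ Zv, Jn E x y

theorem Jn.refl (E : Set (Ω × α)) (x : Ω) : Jn E x x := (jnSetoid E).iseqv.refl x

theorem Jn.symm {E : Set (Ω × α)} {x y : Ω} (h : Jn E x y) : Jn E y x := (jnSetoid E).iseqv.symm h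

theorem Jn.trans {E : Set (Ω × α)} {x y z : Ω} (h : Jn E x y) (h' : Jn E y z) : Jn E x z :=
  (jnSetoid E).iseqv.trans h h'

theorem Jn.mono {E E' : Set (Ω × α)} (hE : E ⊆ E') {x y : Ω} (h : Jn E x y) : Jn E' x y := by
  obtain ⟨w, h1, h2⟩ := h
  exact ⟨w, InE_mono hE h1, h2⟩

theorem mod_nat (Z : Cyc α) (k : ℤ) : ∃ (i : ℕ) (q : ℤ), i < Z.n ∧ k = (i : ℤ) + q * Z.n := by
  have hn : (0 : ℤ) < Z.n := by exact_mod_cast Z.pos
  obtain ⟨r, hr⟩ : ∃ r : ℕ, (r : ℤ) = k % Z.n :=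
    ⟨(k % Z.n).toNat, Int.toNat_of_nonneg (Int.emod_nonneg _ hn.ne')⟩
  have hlt : (r : ℤ) < Z.n := by rw [hr]; exact Int.emod_lt_of_pos _ hn
  refine ⟨r, k / Z.n, by exact_mod_cast hlt, ?_⟩
  rw [hr, mul_comm]
  exact (Int.emod_add_mul_ediv k Z.n).symm

/-- The vertices of a cell. -/
theorem mem_VC' (Z : Cyc α) (C : Finset Ω) (hC : ∀ u ∈ C, act u Z.s = u) (x : Ω) :
    x ∈ VC Z C ↔ ∃ u ∈ C, ∃ k : ℤ, act u (pre Z.c k) = x := by
  classical
  constructor
  · intro h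
    unfold VC at h
    rw [Finset.mem_image] at h
    obtain ⟨⟨u, i⟩, h1, rfl⟩ := h
    exact ⟨u, (Finset.mem_product.1 h1).1, i, rfl⟩
  · rintro ⟨u, hu, k, rfl⟩
    obtain ⟨i, q, hi, rfl⟩ := mod_nat Z k
    rw [act_pre_per (hC u hu)]
    unfold VC
    rw [Finset.mem_image]
    exact ⟨(u, i), Finset.mem_product.2 ⟨hu, Finset.mem_range.2 hi⟩, rfl⟩

/-- The edges of a cell. -/
theorem mem_EC' (Z : Cyc α) (C : Finset Ω) (hC : ∀ u ∈ C, act u Z.s = u) (e : Ω × α) :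
    e ∈ EC Z C ↔ ∃ u ∈ C, ∃ k : ℤ, ed (act u (pre Z.c k)) (Z.c k) = e := by
  classical
  constructor
  · intro h
    unfold EC at h
    rw [Finset.mem_image] at h
    obtain ⟨⟨u, i⟩, h1, rfl⟩ := h
    exact ⟨u, (Finset.mem_product.1 h1).1, i, rfl⟩
  · rintro ⟨u, hu, k, rfl⟩
    obtain ⟨i, q, hi, rfl⟩ := mod_nat Z k
    rw [act_pre_per (hC u hu), Z.per_mul]
    unfold EC
    rw [Finset.mem_image]
    exact ⟨(u, i), Finset.mem_product.2 ⟨hu, Finset.mem_range.2 hi⟩, rfl⟩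

theorem VC_mem (Z : Cyc α) (C : Finset Ω) (hC : ∀ u ∈ C, act u Z.s = u) {u : Ω} (hu : u ∈ C) (k : ℤ) :
    act u (pre Z.c k) ∈ VC Z C := (mem_VC' Z C hC _).2 ⟨u, hu, k, rfl⟩

theorem EC_mem (Z : Cyc α) (C : Finset Ω) (hC : ∀ u ∈ C, act u Z.s = u) {u : Ω} (hu : u ∈ C) (k : ℤ) :
    ed (act u (pre Z.c k)) (Z.c k) ∈ EC Z C := (mem_EC' Z C hC _).2 ⟨u, hu, k, rfl⟩

theorem VC_self (Z : Cyc α) (C : Finset Ω) (hC : ∀ u ∈ C, act u Z.s = u) {u : Ω} (hu : u ∈ C) :
    u ∈ VC Z C := (mem_VC' Z C hC _).2 ⟨u, hu, 0, by rw [pre_zero, act_one]⟩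

/-- The two ends of the edge of a step are the two ends of the step. -/
theorem ends_ed (y : Ω) (x : α × Bool) :
    ((ed y x).1 = y ∧ act (ed y x).1 (lt ((ed y x).2, true)) = act y (lt x)) ∨
      ((ed y x).1 = act y (lt x) ∧ act (ed y x).1 (lt ((ed y x).2, true)) = y) := by
  rcases x with ⟨a, b⟩
  cases b
  · right
    refine ⟨rfl, ?_⟩
    have h1 : ((a, true) : α × Bool) = bar (a, false) := rfl
    change act (act y (lt (a, false))) (lt (a, true)) = y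
    rw [h1, lt_bar]
    exact act_inv_eq rfl
  · left
    exact ⟨rfl, rfl⟩

theorem ends_EC (Z : Cyc α) (C : Finset Ω) (hC : ∀ u ∈ C, act u Z.s = u) : Ends (EC Z C) (VC Z C) := by
  intro x a h
  obtain ⟨u, hu, k, he⟩ := (mem_EC' Z C hC _).1 h
  have h1 := VC_mem Z C hC hu k
  have h2 := VC_mem Z C hC hu (k + 1)
  rw [← act_pre_succ] at h2
  rcases ends_ed (act u (pre Z.c k)) (Z.c k) with ⟨e1, e2⟩ | ⟨e1, e2⟩
  · rw [he] at e1 e2
    simp only at e1 e2
    rw [e1]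
    rw [e1] at e2
    rw [e2]
    exact ⟨h1, h2⟩
  · rw [he] at e1 e2
    simp only at e1 e2
    rw [e2, e1]
    exact ⟨h2, h1⟩

theorem cpx_EC (Z : Cyc α) (C : Finset Ω) (hC : ∀ u ∈ C, act u Z.s = u) :
    Cpx Z (EC Z C : Set (Ω × α)) C where
  fix := hC
  sub u hu := by
    rintro e ⟨i, rfl⟩
    exact EC_mem Z C hC hu i

/-- An end of an edge in `Ze` is in `Zv`. -/
theorem Clo.ed {Zv : Set Ω} {Ze : Set (Ω × α)} (h : Clo Zv Ze) {y : Ω} {x : α × Bool}
    (hx : ed y x ∈ Ze) : y ∈ Zv ∧ act y (lt x) ∈ Zv := by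
  have h1 := h (Pool.Agent.Helper96.UT.ed y x).1 (Pool.Agent.Helper96.UT.ed y x).2 hx
  rcases ends_ed y x with ⟨e1, e2⟩ | ⟨e1, e2⟩
  · rw [e2, e1] at h1
    exact h1
  · rw [e2, e1] at h1
    exact ⟨h1.2, h1.1⟩

theorem Ends.ed {V : Finset Ω} {E : Finset (Ω × α)} (h : Ends E V) {y : Ω} {x : α × Bool}
    (hx : ed y x ∈ E) : y ∈ V ∧ act y (lt x) ∈ V := by
  have h1 := h (Pool.Agent.Helper96.UT.ed y x).1 (Pool.Agent.Helper96.UT.ed y x).2 hx
  rcases ends_ed y x with ⟨e1, e2⟩ | ⟨e1, e2⟩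
  · rw [e2, e1] at h1
    exact h1
  · rw [e2, e1] at h1
    exact ⟨h1.2, h1.1⟩

/-- The vertices of a cell are joined by paths on the cell. -/
theorem Jn_cell (Z : Cyc α) (E : Set (Ω × α)) {u : Ω} (hE : CE Z u ⊆ E) (i j : ℤ) :
    Jn E (act u (pre Z.c i)) (act u (pre Z.c j)) := by
  obtain ⟨P, h1, h2⟩ := cell_path Z u i j
  refine ⟨P, InE_mono hE h1, ?_⟩
  rw [h2, ← act_mul, mul_inv_cancel_left]

theorem Jn_cell0 (Z : Cyc α) (E : Set (Ω × α)) {u : Ω} (hE : CE Z u ⊆ E) (j : ℤ) :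
    Jn E u (act u (pre Z.c j)) := by
  have h := Jn_cell Z E hE 0 j
  rw [pre_zero, act_one] at h
  exact h

/-- A stacking has a highest position. -/
theorem exists_top {Z : Cyc α} (η : Stk Z) : ∃ k₀ : ℤ, ∀ k, η.η k ≤ η.η k₀ := by
  obtain ⟨i, hi, hmax⟩ := Finset.exists_max_image (Finset.range Z.n) (fun i : ℕ => η.η i)
    ⟨0, Finset.mem_range.2 Z.pos⟩
  refine ⟨i, fun k => ?_⟩
  obtain ⟨j, q, hj, rfl⟩ := mod_nat Z k
  rw [eta_per']
  exact hmax j (Finset.mem_range.2 hj)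

end rel

/-! ### Heights -/

section lift

variable {Ω : Type} [MulAction (FreeGroup α) Ω] {X : Type} [LinearOrder X] [MulAction (FreeGroup α) X]

open Classical in
/-- The lifts of the cells to height `x₀`. -/
noncomputable def lf (x₀ : X) (C : Finset Ω) : Finset (Ω × X) := C.image fun u => (u, x₀)

theorem mem_lf {x₀ : X} {C : Finset Ω} {y : Ω × X} : y ∈ lf x₀ C ↔ y.1 ∈ C ∧ y.2 = x₀ := by
  classical
  unfold lf
  rw [Finset.mem_image]
  constructor
  · rintro ⟨u, hu, rfl⟩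
    exact ⟨hu, rfl⟩
  · rintro ⟨h1, h2⟩
    exact ⟨y.1, h1, by rw [← h2]⟩

theorem card_lf (x₀ : X) (C : Finset Ω) : (lf x₀ C).card = C.card := by
  classical
  unfold lf
  exact Finset.card_image_of_injective _ fun a b h => (Prod.mk.inj h).1

/-- The vertices below the heights of the positions of the cells. -/
def ZV (Z : Cyc α) (C : Finset Ω) (x₀ : X) : Set (Ω × X) :=
  {y | ∃ u ∈ C, ∃ k : ℤ, act u (pre Z.c k) = y.1 ∧ y.2 < act x₀ (pre Z.c k)}

/-- The edges below the heights of the steps of the cells. -/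
def ZE (Z : Cyc α) (C : Finset Ω) (x₀ : X) : Set ((Ω × X) × α) :=
  {e | ∃ u ∈ C, ∃ k : ℤ, ed (act u (pre Z.c k)) (Z.c k) = (e.1.1, e.2) ∧
    e.1.2 < act x₀ (pre Z.c (tl Z k))}

theorem lf_fix {Z : Cyc α} {x₀ : X} (hX : Hgt Z X x₀) {C : Finset Ω} (hC : ∀ u ∈ C, act u Z.s = u) :
    ∀ y ∈ lf x₀ C, act y Z.s = y := by
  rintro ⟨u, x⟩ hy
  obtain ⟨h1, h2⟩ := mem_lf.1 hy
  simp only at h1 h2
  rw [act_prod, h2]
  simp only
  rw [hC u h1, hX.fix]

/-- The edges of the lifts. -/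
noncomputable abbrev EL (Z : Cyc α) (C : Finset Ω) (x₀ : X) : Set ((Ω × X) × α) :=
  (EC Z (lf x₀ C) : Set ((Ω × X) × α))

end lift

/-- A complex over the graph of right units. -/
structure Cm (r : FreeMonoid (α × Bool)) (Z : Cyc α) {Ω : Type} [MulAction (FreeGroup α) Ω] (v : Ω)
    (C : Finset Ω) (ρ : Ω → ℕ) : Prop where
  bas : v ∈ C
  ov : Ov r Z v (EC Z C : Set (Ω × α))
  cpx : Cpx Z (EC Z C : Set (Ω × α)) C
  hh : Hh Z (EC Z C : Set (Ω × α)) C v ∅
  chn : ∀ u ∈ C, u = v ∨ ∃ u' ∈ C, ∃ k : ℤ, ρ u' < ρ u ∧ act u' (pre Z.c k) = u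

/-- The properties of the part of the lifted complex near the base point. -/
structure Fl (Z : Cyc α) {Ω : Type} [MulAction (FreeGroup α) Ω] {X : Type} [LinearOrder X]
    [MulAction (FreeGroup α) X] (v : Ω) (C : Finset Ω) (x₀ : X) : Prop where
  top : ∀ p : List (α × Bool), InE (EL Z C x₀) (v, x₀) p →
    act (v, x₀) (FreeGroup.mk p) ∉ ZV Z C x₀
  nc : ∀ q : List (α × Bool), InE (EL Z C x₀) (v, x₀) q → act (v, x₀) (FreeGroup.mk q) = (v, x₀) →
    FreeGroup.mk q ∈ Nc Z (EL Z C x₀) (lf x₀ C) (v, x₀)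

/-- `x₀` is a height for `Z`, and the positions of height `x₀` are units. -/
structure HU0 (r : FreeMonoid (α × Bool)) (Z : Cyc α) (X : Type) [LinearOrder X] [MulAction (FreeGroup α) X]
    (x₀ : X) : Prop where
  word : FreeMonoid.toList r = seg Z.c 0 Z.n
  hgt : Hgt Z X x₀
  unit : ∀ k : ℤ, act x₀ (pre Z.c k) = x₀ → IsUnit (sg r Z k)

end Pool.Agent.Helper84.OX
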