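import Pool.Agent.Helper84.OX.St

/-!
# Project OX (MP_2c90c1_al): assembly
-/

set_option autoImplicit false

namespace Pool.Agent.Helper84.OX

open Pool.Agent.Helper96.UT hiding StTOP TopV TopE tht Bd VC EC
open Pool.Agent.Helper96.GU

variable {α : Type}

/-- The units are `Hp r Z` modulo one relator. -/
theorem oxStep (hHNS : StHNS) (r : FreeMonoid (α × Bool)) (Z : Cyc α) (X : Type) [LinearOrder X]
    [MulAction (FreeGroup α) X] (x₀ : X) (hX : HU0 r Z X x₀) :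
    ∃ (n : ℕ) (s : FreeGroup (Fin n)),
      Nonempty ((IM r)ˣ ≃* PresentedGroup ({s} : Set (FreeGroup (Fin n)))) := by
  have hr := hX.word
  obtain ⟨hs, hfg⟩ := fHPF α r Z hr
  obtain ⟨Ψ, hsurj, hk⟩ := fHPS α r Z hr
  let x : Hp r Z := ⟨Z.s, hs⟩
  have hx : (x : FreeGroup α) = Z.s := rfl
  have hker : Ψ.ker = Subgroup.normalClosure ({x ^ 1} : Set (Hp r Z)) := by
    rw [pow_one]
    apply le_antisymm
    · intro h hh
      rw [MonoidHom.mem_ker] at hh
      have h5 := hHNS α r Z X x₀ hX h h.2 ((hk h).1 hh)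
      obtain ⟨y, hy, hy2⟩ := Ns_le x hx h5
      have : y = h := Subtype.ext hy2
      rw [← this]
      exact hy
    · refine Subgroup.normalClosure_le_normal ?_
      intro y hy
      rw [Set.mem_singleton_iff] at hy
      rw [hy]
      change x ∈ Ψ.ker
      rw [MonoidHom.mem_ker]
      exact (hk x).2 (by rw [hx]; exact s_mem_NT r Z)
  obtain ⟨p, ⟨e⟩⟩ := tFGF α (Hp r Z) hfg
  exact ⟨p, (e x) ^ 1, tPRES (Hp r Z) p e (IM r)ˣ Ψ hsurj x 1 hker⟩

/-- The theorem with the action from the left. -/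
theorem oxMain (hHNS : StHNS) (r : FreeMonoid (α × Bool)) (Z : Cyc α)
    (hr : FreeMonoid.toList r = seg Z.c 0 (1 * Z.n)) (X : Type) [LinearOrder X]
    [MulAction (FreeGroup α) X] (x₀ : X) (hmono : ∀ (g : FreeGroup α) (x y : X), x ≤ y → g • x ≤ g • y)
    (hfix : FreeGroup.mk (FreeMonoid.toList r) • x₀ = x₀)
    (hpos : ∀ j : ℕ, x₀ ≤ FreeGroup.mk ((FreeMonoid.toList r).take j) • x₀ ∧
      (FreeGroup.mk ((FreeMonoid.toList r).take j) • x₀ = x₀ → IsUnit (io r ((FreeMonoid.toList r).take j)))) :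
    ∃ (n : ℕ) (s : FreeGroup (Fin n)),
      Nonempty ((IM r)ˣ ≃* PresentedGroup ({s} : Set (FreeGroup (Fin n)))) := by
  rw [one_mul] at hr
  have hmk : FreeGroup.mk (FreeMonoid.toList r) = Z.s := by rw [hr, mk_seg_s]
  rw [hmk] at hfix
  -- the order dual
  let y₀ : Xᵒᵈ := OrderDual.toDual x₀
  have hact : ∀ (x : X) (g : FreeGroup α), act (OrderDual.toDual x) g = OrderDual.toDual (g⁻¹ • x) :=
    fun _ _ => rfl
  have hfix' : act y₀ Z.s = y₀ := by
    rw [hact]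
    congr 1
    rw [inv_smul_eq_iff, hfix]
  have hper : ∀ k : ℤ, ∃ i : ℕ, i < Z.n ∧ act y₀ (pre Z.c k) = act y₀ (pre Z.c (i : ℤ)) ∧
      sg r Z k = sg r Z (i : ℤ) := by
    intro k
    obtain ⟨i, q, hi, rfl⟩ := mod_nat Z k
    exact ⟨i, hi, act_pre_per hfix' _ _, sg_add_mul r Z _ _⟩
  have hmki : ∀ i : ℕ, i < Z.n → FreeGroup.mk ((FreeMonoid.toList r).take i) = pre Z.c (i : ℤ) := by
    intro i hi
    rw [hr, take_seg Z.c 0 Z.n i hi.le, mk_seg, pre_zero, zero_add]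
    simp
  have hX : HU0 r Z Xᵒᵈ y₀ := by
    refine ⟨hr, ⟨?_, hfix', ?_⟩, ?_⟩
    · intro x y g h
      exact hmono g⁻¹ (OrderDual.ofDual y) (OrderDual.ofDual x) h
    · intro k
      obtain ⟨i, hi, h1, -⟩ := hper k
      rw [h1]
      change (pre Z.c (i : ℤ))⁻¹ • x₀ ≤ x₀
      have h2 := hmono (pre Z.c (i : ℤ))⁻¹ _ _ (hpos i).1
      rw [hmki i hi, inv_smul_smul] at h2
      exact h2
    · intro k hk
      obtain ⟨i, hi, h1, h2⟩ := hper k
      rw [h1] at hk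
      have h3 : (pre Z.c (i : ℤ))⁻¹ • x₀ = x₀ := hk
      have h4 := (hpos i).2 (by
        rw [hmki i hi]
        rw [inv_smul_eq_iff] at h3
        exact h3.symm)
      rw [h2, sg_of_lt r Z hi]
      rw [hr, take_seg Z.c 0 Z.n i hi.le] at h4
      exact h4
  exact oxStep hHNS r Z Xᵒᵈ y₀ hX

end Pool.Agent.Helper84.OX
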