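import Pool.Agent.Helper84.OX.Defs

/-!
# Project OX (MP_2c90c1_al): statements of the modules, with complete proofs in the docstrings

Notation of the docstrings: `c, n, s` = `Z.c, Z.n, Z.s`; `v ⋆ g` = `act v g` (`act_mul`: `v ⋆ (g h) = (v ⋆ g) ⋆ h`); `pre i` =
`pre Z.c i`; `ζ k = x₀ ⋆ pre k` (the height of the position `k`, periodic with period `n`: `act_pre_per`).  The cell `u`
(`u ⋆ s = u`) has the vertices `u ⋆ pre k` and the steps `(u, k)` with the edges `e(u,k) := ed (u ⋆ pre k) (c k)`, `k : ℤ`, periodic.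
`[w] = io r w`.  `out V Zv` = elements of `V` outside `Zv`; `Jn E x y`: joined by a path in `E`.  `Ĉ = lf x₀ C` = the cells
`(u, x₀)`, `u ∈ C`, of `Ω × X` (`act_prod`); `Ê = EL Z C x₀` their edges; `v̂ = (v, x₀)`.
See Defs.lean for `mem_VC'`, `mem_EC'`, `VC_mem`, `EC_mem`, `ends_EC`, `cpx_EC`, `Clo.ed`, `Ends.ed`, `Jn_cell`, `Jn_cell0`, `mod_nat`,
`exists_top`, `mem_lf`, `lf_fix`, `mk_wd`, `ch_concat`, …  Available from the imports (all proved, no hypotheses): `aSTK` (stackings),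
`aTOP`, `aSNG`, `aLA`, `aREQ`, `aRHO`, `aFOR` (`Pool/Agent/Helper96/GU/St.lean`), `fTSC`, `fVNT`, `fVUQ`, `fHPV`, `fHPF`, `fHPS`, `fGNH`
(`Pool/Agent/Helper96/GU/StF.lean`), `tIM1`, `tIM2 tIM1` (`Pool/Agent/Helper96/UT/StI.lean`), `potential`, `Sm_cob`, `common_red`, `RU_uniq`, ….
-/

set_option autoImplicit false

namespace Pool.Agent.Helper84.OX

open Pool.Agent.Helper96.UT hiding StTOP TopV TopE tht Bd VC EC
open Pool.Agent.Helper96.GU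

/-! ### Counting -/

/-- ETA (no hypotheses).  PROOF.  Let `η₀` be a stacking (`aSTK α Z`).  For `i, j : ℤ` let `i ≺ j` iff `ζ i < ζ j`, or
`ζ i = ζ j` and `η₀ i < η₀ j`; it depends only on `i, j` modulo `n`, it is transitive and irreflexive, and if neither `i ≺ j` nor `j ≺ i`
then `ζ i = ζ j`, `η₀ i = η₀ j`, so `n ∣ i - j` (`inj`).  Let `η i` be the number of `j < n` (natural numbers) with `j ≺ i`.  Then
`i ≺ j ↔ η i < η j` (`→`: the set for `i` is contained in that for `j`, and the number `i mod n` is only in the second one;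
`←`: otherwise `j ≺ i` or they are equivalent and `η j ≤ η i`).  `per`, `inj` clear.  `mono`: `c i = c j`: `ζ (i+1) = ζ i ⋆ lt (c i)`, so
`ζ i < ζ j ↔ ζ (i+1) < ζ (j+1)` (`Hgt.lt`, and `Hgt.mono` for the converse by totality), `ζ i = ζ j ↔ ζ (i+1) = ζ (j+1)` (`act_inj`), and `η₀` has
the property; so `i ≺ j ↔ i+1 ≺ j+1`.  `monobar`: `c i = bar (c j)`: `ζ (i+1) = ζ i ⋆ (lt (c j))⁻¹` and
`ζ j = ζ (j+1) ⋆ (lt (c j))⁻¹`, so `ζ i < ζ (j+1) ↔ ζ (i+1) < ζ j`, the same for `=`, and for `η₀` by its `monobar`. -/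
def StETA : Prop := ∀ (α : Type) (Z : Cyc α) (X : Type) [LinearOrder X] [MulAction (FreeGroup α) X] (x₀ : X),
  Hgt Z X x₀ → ∃ η : Stk Z, ∀ i j : ℤ, act x₀ (pre Z.c i) < act x₀ (pre Z.c j) → η.η i < η.η j

/-- LR0 (no hypotheses).  PROOF.  (Compare `aLA`, proof in `Pool/Agent/Helper15/GU/M_LA.lean`.)  Let `V' = out V Zv`, `E' = out E Ze`,
and `δ : ({x // x ∈ V'} → ℚ) → ({e // e ∈ E'} → ℚ)` the linear map `(δ f)(x, a) = f̄ (x ⋆ a) - f̄ x`, `f̄` the extension of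
`f` by `0` to `Ω`.  `δ` is injective: let `δ f = 0`.  For an edge `(x, a)` of `E`: `f̄ (x ⋆ a) = f̄ x`, since either it is in `E'`, or it is
in `Ze` and both ends are in `Zv`, where `f̄ = 0`.  So `f̄` is constant along paths in `E` (`ends_ed`, induction on the path, or `Sm_cob`), and it is `0` on
`Zv`; by the last hypothesis it is `0` on `V`.  So `|V'| ≤ |E'|` (`LinearMap.finrank_le_finrank_of_injective`, `Module.finrank_fintype_fun_eq_card`). -/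
def StLR0 : Prop := ∀ (α Ω : Type) [MulAction (FreeGroup α) Ω] (E : Finset (Ω × α)) (V : Finset Ω) (Zv : Set Ω)
  (Ze : Set (Ω × α)), Ends E V → Clo Zv Ze → (∀ x ∈ V, JnZ (E : Set (Ω × α)) Zv x) → (out V Zv).card ≤ (out E Ze).card

/-- LR1 (no hypotheses).  PROOF.  `δ : ({x // x ∈ V} → ℚ) → ({e // e ∈ E} → ℚ)`, `(δ f)(x, a) = f (x ⋆ a) - f x` (ends in `V` by `Ends`).  If
`δ f = 0` then `f` (extended by `0` outside `V`) is constant along paths in `E`, so it is constant on `V`: `dim ker δ ≤ 1`.  So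
`|V| - 1 ≤ dim im δ ≤ |E|`.  If `|E| + 1 ≤ |V|` then `dim im δ ≥ |V| - 1 ≥ |E|`, so `δ` is surjective.  Let `φ` be a cochain and `q` a closed path in `E`;
`φ = δ f` on `E` for some `f`, so `Sm φ x q = f (x ⋆ mk q) - f x = 0` (`Sm_congr_on`, `Sm_cob`).  This is `Hh Z E ∅ v ∅` (the other
hypotheses of `Hh` are not used). -/
def StLR1 : Prop := ∀ (α : Type) (Z : Cyc α) (Ω : Type) [MulAction (FreeGroup α) Ω] (E : Finset (Ω × α)) (V : Finset Ω)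
  (v : Ω), v ∈ V → Ends E V → (∀ x ∈ V, Jn (E : Set (Ω × α)) v x) → V.card ≤ E.card + 1 ∧
  (E.card + 1 ≤ V.card → Hh Z (E : Set (Ω × α)) ∅ v ∅)

/-- CNR (no hypotheses).  PROOF.  Let `S = D ×ˢ range n`, `T (u,k)`: `TopV Z D η u k` and `u ⋆ pre k ∉ Zv`; `A (u,k)`: `TopE Z D η u k` and
`e(u,k) ∉ Ze`; both depend only on `k` mod `n` (`topV_per_SNG`, `topE_per_SNG` in `Pool/Agent/Helper82/GU/M_SNG.lean`).
(1) As in the proof of TOP (`Pool/Agent/Helper82/GU/M_TOP.lean`): `{p ∈ S | T p}` is in bijection with `out (VC Z D) Zv` by `p ↦` vertex, and `{p ∈ S | A p}`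
with `out (EC Z D) Ze` by `p ↦` edge.  (2) `T (u,k) → A (u,k)`: `topVE_TOP`; an edge in `Ze` has its ends in `Zv` (`Clo.ed`).
(3) `T (u,k+1) → A (u,k)`: `topV_succ_SNG`; `Clo.ed`.  By (1), (2): `|out EC Ze| = |out VC Zv| + |{p ∈ S | A p, ¬ T p}|`.  (4) For
every `u ∈ D` there is `i < n` with `A (u,i)`, `¬ T (u,i)`: otherwise `A (u,k) → T (u,k)` for all `k`; `T (u,k₀)` holds (`TopV` because `η k₀` is the
maximum; `u ⋆ pre k₀ ∉ Zv`), and `T (u,k+1) → A (u,k) → T (u,k)`, so `T (u,k)` for all `k ≤ k₀`, hence for all `k` by periodicity, against the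
last hypothesis.  So `|D| ≤ |{p ∈ S | A p, ¬ T p}|`. -/
def StCNR : Prop := ∀ (α : Type) (Z : Cyc α) (η : Stk Z) (Ω : Type) [MulAction (FreeGroup α) Ω] (D : Finset Ω) (Zv : Set Ω)
  (Ze : Set (Ω × α)), (∀ u ∈ D, act u Z.s = u) → Clo Zv Ze → ∀ k₀ : ℤ, (∀ k, η.η k ≤ η.η k₀) →
  (∀ u ∈ D, act u (pre Z.c k₀) ∉ Zv) → (∀ u ∈ D, ∃ k : ℤ, ¬ TopV Z D η.η u k ∨ act u (pre Z.c k) ∈ Zv) →
  (out (VC Z D) Zv).card + D.card ≤ (out (EC Z D) Ze).card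

/-- QRL (hypotheses LR0, CNR).  PROOF.  Induction on `D.card` (for all `E`, `D`).  `D = ∅`: LR0.  Let `D ≠ ∅`.
(1) Suppose that some `u ∈ D` has `TopV Z D η u k` and `u ⋆ pre k ∉ Zv` for all `k`.  Then no `(u,i)` is in `Bd Z D η`, so `aSNG` gives `k`
with `Sg Z D u k`.  Let `e₀ = e(u,k) ∈ E`, `E' = E.erase e₀` (`(E' : Set _) = E \ {e₀}`, `Finset.coe_erase`), `D' = D.erase u`.  `aREQ`: `Cpx Z E' D'`.  `Ends`, `Clo` clear.
`aRHO` (5) turns a path in `E` into a path in `E'` with the same end, so `JnZ` is preserved.  `e₀ ∉ Ze` by `Clo.ed`, since its end `u ⋆ pre k` is not in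
`Zv`; so `|out E' Ze| = |out E Ze| - 1`, and `|D'| = |D| - 1`.  Induction.
(2) Otherwise CNR: `|out (VC D) Zv| + |D| ≤ |out (EC D) Ze|`.  LR0 for `Zv' = Zv ∪ VC D`, `Ze' = Ze ∪ EC D` (`Clo` by `ends_EC`): `|out V Zv'| ≤ |out E Ze'|`.
`VC D ⊆ V`, `EC D ⊆ E`, so `|out V Zv| = |out V Zv'| + |out (VC D) Zv|` and `|out E Ze| = |out E Ze'| + |out (EC D) Ze|`.  Add. -/
def StQRL : Prop := ∀ (α : Type) (Z : Cyc α) (η : Stk Z) (Ω : Type) [MulAction (FreeGroup α) Ω] (E : Finset (Ω × α))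
  (V D : Finset Ω) (Zv : Set Ω) (Ze : Set (Ω × α)), Clo Zv Ze → Ends E V → Cpx Z (E : Set (Ω × α)) D →
  (∀ u ∈ D, ∀ k : ℤ, act u (pre Z.c k) ∈ V) → ∀ k₀ : ℤ, (∀ k, η.η k ≤ η.η k₀) →
  (∀ u ∈ D, act u (pre Z.c k₀) ∉ Zv) → (∀ x ∈ V, JnZ (E : Set (Ω × α)) Zv x) →
  (out V Zv).card + D.card ≤ (out E Ze).card

/-- QAB (hypotheses LR0, LR1, CNR).  PROOF.  Induction on `D.card` (for all `E`, `D`); let `η` be a stacking (`aSTK`).
`D = ∅`: LR1; in the second part `aFOR` gives `mk q = 1`.  Let `D ≠ ∅`.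
(1) Suppose that some `u ∈ D` has `TopV Z D η u k` for all `k`.  As in QRL (1): `aSNG` gives `k` with `Sg Z D u k`, `e₀ = e(u,k)`,
`E' = E.erase e₀`, `D' = D.erase u`; `aREQ`, `aRHO` (5).  By induction `|V| + |D'| ≤ |E'| + 1`, i.e. the first claim.  If `|E| + 1 ≤ |V| + |D|` then
`|E'| + 1 ≤ |V| + |D'|`; as in the proof of COL (`Pool/Agent/Helper36/GU/M_COL.lean`): for a closed path `q` in `E` at `x`, `aRHO` (5) gives a closed path `q'` in `E'` with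
`mk q' = ρ x (mk q)`, `mk q' ∈ Nc Z E' D' x ≤ Nc Z E D x`, and `mk q * (mk q')⁻¹ ∈ Nc Z E D x` by `aRHO` (6).
(2) Otherwise CNR with `Zv = ∅`, `Ze = ∅` (and `exists_top`): `|VC D| + |D| ≤ |EC D|`.  Take `u ∈ D`; every `x ∈ V` is joined to `v` and `v` to `u ∈ VC D`
(`u ∈ V`), so LR0 with `Zv = VC D`, `Ze = EC D` gives `|V \ VC D| ≤ |E \ EC D|`.  Sum: `|V| + |D| ≤ |E|`: the first claim, and the hypothesis of the second one is
false. -/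
def StQAB : Prop := ∀ (α : Type) (Z : Cyc α) (Ω : Type) [MulAction (FreeGroup α) Ω] (E : Finset (Ω × α))
  (V D : Finset Ω) (v : Ω), v ∈ V → Ends E V → Cpx Z (E : Set (Ω × α)) D →
  (∀ u ∈ D, ∀ k : ℤ, act u (pre Z.c k) ∈ V) → (∀ x ∈ V, Jn (E : Set (Ω × α)) v x) →
  V.card + D.card ≤ E.card + 1 ∧ (E.card + 1 ≤ V.card + D.card →
    ∀ (x : Ω) (q : List (α × Bool)), InE (E : Set (Ω × α)) x q → act x (FreeGroup.mk q) = x →
      FreeGroup.mk q ∈ Nc Z (E : Set (Ω × α)) D x)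

/-- LAQ (no hypotheses).  PROOF.  The first half of the proof of GDQ (`Pool/Agent/Helper79/GU/M_GDQ.lean`): `aLA` with `E := EC Z C`,
`V := VC Z C`, `ι := {u // u ∈ C}`, `Λ φ := fun u => Sa φ u s`. -/
def StLAQ : Prop := ∀ (α : Type) (Z : Cyc α) (Ω : Type) [MulAction (FreeGroup α) Ω] (C : Finset Ω) (v : Ω),
  Cpx Z (EC Z C : Set (Ω × α)) C → Hh Z (EC Z C : Set (Ω × α)) C v ∅ → C.Nonempty →
  (EC Z C).card + 1 ≤ (VC Z C).card + C.card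

/-- PRV (no hypotheses).  Vertices of the lifts.  PROOF.  `y = (w, z)`.  The vertices of `Ĉ` are the `(u ⋆ pre k, ζ k)`, `u ∈ C`
(`mem_VC'` for `lf_fix`, `act_prod`).  The map `out (VC Z Ĉ) (ZV Z C x₀) → VC Z C`, `(w, z) ↦ w` is a bijection (`Finset.card_bij`
or `card_nbij`).  Injective: let `(w, z) = (u ⋆ pre k, ζ k)`, `(w, z') = (u' ⋆ pre k', ζ k')`; `z < z'` gives
`(w, z) ∈ ZV` by `u', k'`, and `z' < z` the same.  Surjective: for `w ∈ VC Z C` choose, among the pairs `(u, i) ∈ C ×ˢ range n` with `u ⋆ pre i = w`, one with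
`ζ i` maximal; then `(w, ζ i) ∈ VC Z Ĉ` and not in `ZV` (`mod_nat`, `act_pre_per` for `u'` and for `x₀`).
Second claim: `(u, x₀) ⋆ pre k₀ = (u ⋆ pre k₀, ζ k₀)` and `ζ k₀` is maximal. -/
def StPRV : Prop := ∀ (α : Type) (Z : Cyc α) (Ω : Type) [MulAction (FreeGroup α) Ω] (X : Type) [LinearOrder X]
  [MulAction (FreeGroup α) X] (x₀ : X), Hgt Z X x₀ → ∀ C : Finset Ω, (∀ u ∈ C, act u Z.s = u) →
  (out (VC Z (lf x₀ C)) (ZV Z C x₀)).card = (VC Z C).card ∧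
  ∀ k₀ : ℤ, (∀ k, act x₀ (pre Z.c k) ≤ act x₀ (pre Z.c k₀)) →
    ∀ y ∈ lf x₀ C, act y (pre Z.c k₀) ∉ ZV Z C x₀

/-- PRE (no hypotheses).  Edges of the lifts.  PROOF.  By `ed_tl` the edge of the step `k` of the cell `(u, x₀)` is
`((u ⋆ pre (tl k), ζ (tl k)), (c k).1)`, and that of the cell `u` is `(u ⋆ pre (tl k), (c k).1)`.
`Clo`: let `((x, z), a) ∈ ZE`: `(x, a) = e(u,k)`, `z < ζ (tl k)`.  `x = u ⋆ pre (tl k)`, so `(x, z) ∈ ZV`.  The other end: `(x ⋆ a, z ⋆ a)`, `x ⋆ a = u ⋆ pre k'` with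
`k' = k + 1` if `tl k = k`, `k' = k` if `tl k = k + 1`, and `z ⋆ a < ζ (tl k) ⋆ a = ζ k'` (`Hgt.lt`; `ends_ed`, `act_pre_succ`).
The count: the bijection `out (EC Z Ĉ) ZE → EC Z C`, `((w, z), a) ↦ (w, a)`, exactly as in PRV with `ζ (tl k)` instead of `ζ k` (`tl (k + q n) = tl k + q n`:
`tl_add_mul`). -/
def StPRE : Prop := ∀ (α : Type) (Z : Cyc α) (Ω : Type) [MulAction (FreeGroup α) Ω] (X : Type) [LinearOrder X]
  [MulAction (FreeGroup α) X] (x₀ : X), Hgt Z X x₀ → ∀ C : Finset Ω, (∀ u ∈ C, act u Z.s = u) →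
  Clo (ZV Z C x₀) (ZE Z C x₀) ∧ (out (EC Z (lf x₀ C)) (ZE Z C x₀)).card = (EC Z C).card

/-- SPL (no hypotheses).  Splitting.  PROOF.  `VC D` is the disjoint union of `VC D₁` and `VC D₂` by `mem_VC'`: elements of the first are in
`J`, those of the second are not.  `EC D` is the disjoint union of `EC D₁` and `EC D₂` (`mem_EC'`): if `e(u₁,k₁) = e(u₂,k₂)` then by
`ed_eq` a vertex of the cell `u₁` is a vertex of the cell `u₂` (the vertex `u₁ ⋆ pre k₁` is `u₂ ⋆ pre k₂` or `u₂ ⋆ pre (k₂+1)`), so `u₁ ∈ J ↔ u₂ ∈ J`.  `out` of a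
disjoint union is the disjoint union of the `out`s. -/
def StSPL : Prop := ∀ (α : Type) (Z : Cyc α) (Ω : Type) [MulAction (FreeGroup α) Ω] (D D₁ D₂ : Finset Ω) (J : Set Ω),
  (∀ u ∈ D, act u Z.s = u) → (∀ u ∈ D, ∀ k : ℤ, act u (pre Z.c k) ∈ J ↔ u ∈ J) →
  (∀ u, u ∈ D₁ ↔ u ∈ D ∧ u ∈ J) → (∀ u, u ∈ D₂ ↔ u ∈ D ∧ u ∉ J) → ∀ (Zv : Set Ω) (Ze : Set (Ω × α)),
  (out (VC Z D) Zv).card = (out (VC Z D₁) Zv).card + (out (VC Z D₂) Zv).card ∧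
  (out (EC Z D) Ze).card = (out (EC Z D₁) Ze).card + (out (EC Z D₂) Ze).card ∧ D.card = D₁.card + D₂.card

/-- PPL (no hypotheses).  Paths which start in the component stay in it.  PROOF.  Let `J` be the set of the `y` with
`Jn (EC D) y₀ y`, `D₁ = D ∩ J`.  Induction on `w`; `w = z :: w'`: the edge `ed x z` is in `EC D`, so it is `e(u,k)`, `u ∈ D`; by `ed_eq` `x` is
`u ⋆ pre k` or `u ⋆ pre (k+1)`, so `u` is joined to `x` (`Jn_cell0`, `cpx_EC`), `u ∈ J`, `u ∈ D₁`, and the edge is in `EC D₁`.  `x ⋆ lt z ∈ J`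
(the path `[z]`). -/
def StPPL : Prop := ∀ (α : Type) (Z : Cyc α) (Ω : Type) [MulAction (FreeGroup α) Ω] (D D₁ : Finset Ω) (y₀ : Ω),
  (∀ u ∈ D, act u Z.s = u) → (∀ u, u ∈ D₁ ↔ u ∈ D ∧ Jn (EC Z D : Set (Ω × α)) y₀ u) →
  ∀ (w : List (α × Bool)) (x : Ω), Jn (EC Z D : Set (Ω × α)) y₀ x → InE (EC Z D : Set (Ω × α)) x w →
    InE (EC Z D₁ : Set (Ω × α)) x w

/-- PJZ (no hypotheses).  The other components meet `ZV`.  PROOF.  First claim, for `û = (u, x₀) ∈ D₂`, by strong induction on `ρ u`: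
`JnZ (EC D₂) ZV û`.  `u ≠ v`, since `(v, x₀) ∈ J`.  So `Cm.chn` gives `u' ∈ C`, `k` with `ρ u' < ρ u`, `u' ⋆ pre k = u`.
If `x₀ < ζ k` then `û ∈ ZV` (by `u', k`) and the path `[]` will do.  Otherwise `ζ k = x₀` (`Hgt.low`), so `(u', x₀) ⋆ pre k = û`.  `û' = (u', x₀) ∈ Ĉ`, and
`û' ∉ J`, because otherwise `û ∈ J` (`Jn_cell0` for the cell `û'` in `Ê`); so `û' ∈ D₂`, by induction it is joined to `ZV` in `EC D₂`, and `û` is joined to `û'`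
by a path on the cell `û'` (`Jn_cell0` with `cpx_EC` for `D₂`).  Now let `x ∈ VC D₂`, `x = û ⋆ pre k`: `Jn_cell0` again. -/
def StPJZ : Prop := ∀ (α : Type) (r : FreeMonoid (α × Bool)) (Z : Cyc α) (Ω : Type) [MulAction (FreeGroup α) Ω]
  (X : Type) [LinearOrder X] [MulAction (FreeGroup α) X] (x₀ : X) (v : Ω) (C : Finset Ω) (ρ : Ω → ℕ),
  Hgt Z X x₀ → Cm r Z v C ρ → ∀ D₂ : Finset (Ω × X),
  (∀ y, y ∈ D₂ ↔ y ∈ lf x₀ C ∧ ¬ Jn (EL Z C x₀) (v, x₀) y) →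
  ∀ x ∈ VC Z D₂, JnZ (EC Z D₂ : Set ((Ω × X) × α)) (ZV Z C x₀) x

/-- FUL (hypotheses ETA, QRL, QAB, LAQ, PRV, PRE, SPL, PPL, PJZ).  PROOF.  `η` from ETA, `k₀` from `exists_top`; `ζ k ≤ ζ k₀` for all `k` (otherwise
`η k₀ < η k`).  `J := {y | Jn Ê v̂ y}`, `D₁, D₂` = the cells of `Ĉ` in `J` and not in `J` (`Finset.filter`); for `û ∈ Ĉ`: `û ⋆ pre k ∈ J ↔ û ∈ J`
(`Jn_cell0`).  `V_i = VC Z D_i`, `E_i = EC Z D_i`, `N_i = |out V_i ZV|`, `M_i = |out E_i ZE|`.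
(a) LAQ, PRV, PRE, SPL, `card_lf`: `M₁ + M₂ + 1 ≤ N₁ + N₂ + |D₁| + |D₂|`.
(b) QRL for `E₂, V₂, D₂, ZV, ZE` (`ends_EC`, `cpx_EC`, `VC_mem`, PRV second part, PJZ): `N₂ + |D₂| ≤ M₂`.  So `M₁ + 1 ≤ N₁ + |D₁|`.
(c) `J ∩ ZV = ∅`: suppose `y ∈ J ∩ ZV`.  Every `x ∈ V₁` is in `J` (`x = û ⋆ pre k`, `û ∈ D₁`), so it is joined to `v̂` and to `y` by paths in `Ê`; by PPL
(`x ∈ J`) the path from `x` to `y` is in `E₁`.  So `JnZ E₁ ZV x`, and QRL for `E₁, V₁, D₁` gives `N₁ + |D₁| ≤ M₁`, a contradiction.  This is `Fl.top`.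
(d) So `out V₁ ZV = V₁` (`V₁ ⊆ J`), `out E₁ ZE = E₁` (an edge in `E₁ ∩ ZE` would have its ends in `V₁ ∩ ZV` by `ends_EC`, PRE), `|E₁| + 1 ≤ |V₁| + |D₁|`.
QAB for `E₁, V₁, D₁`, `v̂ ∈ V₁` (`v ∈ C`, `VC_self`); every `x ∈ V₁` is joined to `v̂` in `E₁` (PPL).  A closed path `q` in `Ê` at `v̂` is in `E₁` (PPL), so
`mk q ∈ Nc Z E₁ D₁ v̂ ≤ Nc Z Ê Ĉ v̂` (`Subgroup.closure_mono`, `InE_mono`, `E₁ ⊆ Ê` by `mem_EC'`). -/
def StFUL : Prop := ∀ (α : Type) (r : FreeMonoid (α × Bool)) (Z : Cyc α) (Ω : Type) [MulAction (FreeGroup α) Ω]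
  (X : Type) [LinearOrder X] [MulAction (FreeGroup α) X] (x₀ : X) (v : Ω) (C : Finset Ω) (ρ : Ω → ℕ),
  Hgt Z X x₀ → Cm r Z v C ρ → Fl Z v C x₀

/-! ### The complexes -/

/-- CHW (no hypotheses).  PROOF.  (1) `k = i + q n` with `i < n`, `q : ℕ`; induction on `q`: `seg c 0 (n + k') = seg c 0 n ++ seg c n k'` (`seg_add`),
`seg c n k' = seg c 0 k'` (periodicity), `[seg c 0 n] = [r] = 1` (`io_r`), so `[seg c 0 (n+k')] = [seg c 0 k']`; `sg_add_mul`, `sg_of_lt`.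
(2) `List.reverseRecOn`: `[wd (l ++ [k])] = [wd l] [seg c 0 k]`, `RU_mul_IM2`, `RU_sg`.  (3) the same induction with `wd (l ++ [k]) ++ seg c 0 i` is not
needed: `[wd l ++ seg c 0 k] = [wd l] σ k`, both factors right units.  (4) `ch l = mk (wd l)`, a generator of `NT`.  (5) `tIM2 tIM1` (second part): `y` is a product
of units `[(toList r).take j]`; `Submonoid.closure_induction`: `(toList r).take j = seg c 0 (min j n)` (`take_seg`), `l = []` for `1`, `l ++ l'` for products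
(`wd_append`, `io_append`). -/
def StCHW : Prop := ∀ (α : Type) (r : FreeMonoid (α × Bool)) (Z : Cyc α), FreeMonoid.toList r = seg Z.c 0 Z.n →
  (∀ k : ℕ, io r (seg Z.c 0 k) = sg r Z k) ∧ (∀ l : List ℕ, RU (io r (wd Z l))) ∧
  (∀ (l : List ℕ) (k : ℕ), RU (io r (wd Z l ++ seg Z.c 0 k))) ∧
  (∀ l : List ℕ, ch Z l * Z.s * (ch Z l)⁻¹ ∈ NT r Z) ∧
  (∀ y : IM r, IsUnit y → ∃ l : List ℕ, io r (wd Z l) = y ∧ ∀ k ∈ l, IsUnit (sg r Z (k : ℤ)))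

/-- STP (no hypotheses).  The Schützenberger graph of `1`.  PROOF.  Let `N' := closure {ch l * s * (ch l)⁻¹}`, `Ω' = F ⧸ N'`, `v'` its base point
(`v' ⋆ g = v' ⋆ h ↔ g h⁻¹ ∈ N'`: `UT.act_coset_eq_EXZ`), `E' = ⋃_l CE Z (v' ⋆ ch l)`.
(1) If `InE E' v' q` then `v' ⋆ mk q = v' ⋆ ch l` for some `l`: for `q = []` take `l = []`; otherwise the end of `q` is an end of an edge of `E'`, so it is
`(v' ⋆ ch l) ⋆ pre k` for some `k : ℤ`; `k = i + a n` (`mod_nat`) and the cell `v' ⋆ ch l` is fixed by `s`, so it is `v' ⋆ ch (l ++ [i])`.  So it is fixed by `s`, and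
the path `seg c 0 n` from it is in `E'` (`InE_cell`).
(2) For words `u, w` let `u ≈ w` iff for all `q`: `InE E' v' (q ++ u) ↔ InE E' v' (q ++ w)`, and if `InE E' v' (q ++ u)` then
`v' ⋆ mk (q ++ u) = v' ⋆ mk (q ++ w)`.  It is a congruence of `FreeMonoid (α × Bool)` (for `u u'`, `w w'` compare with `w u'`: use `q := q ++ w` for the
second step, and for the first step that `InE E' v' (q ++ u ++ u')` is `InE E' v' (q ++ u)` and `InE E' (v' ⋆ mk (q ++ u)) u'`, which depends only on the end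
point; `InE_append`).  It contains `Rel r`: `w w⁻¹ w ≈ w` and `u u⁻¹ w w⁻¹ ≈ w w⁻¹ u u⁻¹` by `InE_append`, `InE_invRev` (`InE E' x (w ++ invRev w) ↔ InE E' x w`, the
end point is `x`) and `mk_invRev`; `r ≈ 1`: by (1) the path `toList r = seg c 0 n` can be appended to every `q`, and `v' ⋆ mk (q ++ r) = (v' ⋆ mk q) ⋆ s = v' ⋆ mk q`.
So `[u] = [w]` gives `u ≈ w` (compare `StTSC` in `GU/StF.lean`, proof in `Pool/Agent/Helper40/GF/M_TSC.lean`).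
(3) `g ∈ NT`: `fVNT` gives `w` with `mk w = g`, `[w] = 1 = []`, so `w ≈ []`; with `q = []`: `v' ⋆ mk w = v'`, i.e. `g ∈ N'`. -/
def StSTP : Prop := ∀ (α : Type) (r : FreeMonoid (α × Bool)) (Z : Cyc α), FreeMonoid.toList r = seg Z.c 0 Z.n →
  ∀ g ∈ NT r Z, g ∈ Subgroup.closure {x : FreeGroup α | ∃ l : List ℕ, x = ch Z l * Z.s * (ch Z l)⁻¹}

/-- EX2 (hypotheses CHW, STP).  PROOF.  (Compare `EXT` in `GU/StF.lean`, proof in `Pool/Agent/Helper65/GF/M_EXT.lean`.)  By STP there is a finite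
set `W₁` of lists with `G₀ ⊆ closure {ch l * s * (ch l)⁻¹ | l ∈ W₁}` (closure induction for one `g`: finite unions; then union over `G₀`).  Let `W'` be the
finite set of all initial sublists (`List.inits`) of the lists in `W₀ ∪ W₁ ∪ {[]}`; `L₁ := closure {ch l * s * (ch l)⁻¹ | l ∈ W'} ≤ NT` (CHW (4)); `Ω := F ⧸ L₁`, `v` the
base point (`v ⋆ g = v ⋆ h ↔ g h⁻¹ ∈ L₁`: `UT.act_coset_eq_EXZ`), `C := {v ⋆ ch l | l ∈ W'}`, `ρ u := sInf {l.length | l ∈ W', v ⋆ ch l = u}`.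
`u ⋆ s = u` for `u = v ⋆ ch l ∈ C`; `cpx`: `cpx_EC`.  `chn`: let `u = v ⋆ ch l`, `l ∈ W'`, `l.length = ρ u`; if `l = []` then `u = v`; if `l = l' ++ [k]` then `l' ∈ W'`,
`u' := v ⋆ ch l' ∈ C`, `ρ u' ≤ l'.length < ρ u`, `u' ⋆ pre k = u` (`ch_concat`).
`hh`: as in EXT/EXI (`{g | v ⋆ g = v ∧ Sa φ v g = 0}` is a subgroup containing the generators of `L₁`, because `Sa φ (v ⋆ ch l) s = 0`; every `x : Ω` is `v ⋆ g`).
`ov.stab`: `v ⋆ g = v` gives `g ∈ L₁ ≤ NT`.  `ov.ru`: induction on `q` (append at the end); `q = []`: `RU_nil`.  Let `InE (EC C) v (q ++ [x])`, `RU [q]`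
by induction.  The last edge is `e(u, k)`, `u = v ⋆ ch l ∈ C`, and we may take `k = i < n` natural (`mod_nat`, periodicity).  `ed_eq`: either
`v ⋆ mk q = v ⋆ (ch l * pre i)`, `x = c i`: then `mk q * (ch l * pre i)⁻¹ ∈ L₁ ≤ NT` has a word `w₀` with `[w₀] = 1` (`fVNT`), and `w₀ ++ wd l ++ seg c 0 i` has
the group element `mk q` and the value `[wd l ++ seg c 0 i]`, a right unit (CHW (3)), so `[q] = [wd l ++ seg c 0 i]` (`RU_uniq`) and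
`[q ++ [x]] = [wd l ++ seg c 0 (i+1)]` (`seg_succ`), a right unit.  Or `v ⋆ mk q = v ⋆ (ch l * pre (i+1))`, `x = bar (c i)`: in the same way
`[q] = [wd l ++ seg c 0 (i+1)]`, and `[q ++ [x]] = [wd l ++ seg c 0 i]` by `RU_back`.
The last claims: `l' <+: l`, `l ∈ W₀` gives `l' ∈ W'`; `g ∈ G₀` is in `L₁`. -/
def StEX2 : Prop := ∀ (α : Type) (r : FreeMonoid (α × Bool)) (Z : Cyc α), FreeMonoid.toList r = seg Z.c 0 Z.n →
  ∀ (G₀ : Finset (FreeGroup α)) (W₀ : Finset (List ℕ)), (∀ g ∈ G₀, g ∈ NT r Z) →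
  ∃ (Ω : Type) (_ : MulAction (FreeGroup α) Ω) (v : Ω) (C : Finset Ω) (ρ : Ω → ℕ), Cm r Z v C ρ ∧
    (∀ l ∈ W₀, ∀ l' : List ℕ, l' <+: l → act v (ch Z l') ∈ C) ∧ ∀ g ∈ G₀, act v g = v

/-! ### The subgroup `H` -/

/-- UNB (hypothesis CHW).  PROOF.  Strong induction on `ρ u`.  `u = v`: `p = []` (`[ ] = 1`).  Otherwise `Cm.chn` gives `u' ∈ C`, `k : ℤ`, `ρ u' < ρ u`, `u' ⋆ pre k = u`.
`x₀ ≤ ζ k`.  If `x₀ < ζ k` then `(u, x₀) ∈ ZV` (by `u', k`), against `Fl.top` (the path from `v̂` to `(u, x₀)`).  So `ζ k = x₀` and `sg k` is a unit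
(`HU0.unit`).  `(u', x₀) ∈ Ĉ`, `(u', x₀) ⋆ pre k = (u, x₀)`, so `(u', x₀)` is joined to `v̂` (`Jn_cell0`, `cpx_EC`, `lf_fix`).  By induction `p'` for `u'`.  `k = i + a n`
(`mod_nat`), `p := p' ++ seg c 0 i` (in `EC Z C`: `InE_append`, `InE_cell`, `Cpx.sub`), `[p] = [p'] sg i = [p'] sg k` (CHW (1), `sg_add_mul`), a unit; its end is
`u' ⋆ pre i = u' ⋆ pre k = u`. -/
def StUNB : Prop := ∀ (α : Type) (r : FreeMonoid (α × Bool)) (Z : Cyc α) (Ω : Type) [MulAction (FreeGroup α) Ω]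
  (X : Type) [LinearOrder X] [MulAction (FreeGroup α) X] (x₀ : X) (v : Ω) (C : Finset Ω) (ρ : Ω → ℕ),
  HU0 r Z X x₀ → Cm r Z v C ρ → Fl Z v C x₀ → ∀ u ∈ C, Jn (EL Z C x₀) (v, x₀) (u, x₀) →
  ∃ p : List (α × Bool), InE (EC Z C : Set (Ω × α)) v p ∧ act v (FreeGroup.mk p) = u ∧ IsUnit (io r p)

/-- INC (hypotheses CHW, UNB).  PROOF.  Let `p, p'` be the paths of UNB for `u`, `u'`, `y = [p]`, `y' = [p']` units.  `k = i + a n`, `k' = i' + a' n`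
(`mod_nat`).  The paths `p ++ seg c 0 i` and `p' ++ seg c 0 i'` in `EC Z C` have the same end point `u ⋆ pre k = u' ⋆ pre k'`, so the same value (`fVUQ`,
`Cm.ov`): `y sg k = y' sg k'` (CHW (1), `sg_add_mul`).  So `sg k = (y⁻¹ y') sg k'`, and `pre k * (pre k')⁻¹` is a generator of `Hp`. -/
def StINC : Prop := ∀ (α : Type) (r : FreeMonoid (α × Bool)) (Z : Cyc α) (Ω : Type) [MulAction (FreeGroup α) Ω]
  (X : Type) [LinearOrder X] [MulAction (FreeGroup α) X] (x₀ : X) (v : Ω) (C : Finset Ω) (ρ : Ω → ℕ),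
  HU0 r Z X x₀ → Cm r Z v C ρ → Fl Z v C x₀ → ∀ u ∈ C, ∀ u' ∈ C, Jn (EL Z C x₀) (v, x₀) (u, x₀) →
  Jn (EL Z C x₀) (v, x₀) (u', x₀) → ∀ k k' : ℤ, act u (pre Z.c k) = act u' (pre Z.c k') →
  pre Z.c k * (pre Z.c k')⁻¹ ∈ Hp r Z

/-- PTH (hypothesis INC).  PROOF.  (1) Induction on `p` (append at the end); note that `(u, x₀) ⋆ pre k = v̂ ⋆ mk p` implies that `(u, x₀)` is joined to `v̂`
(`Jn_cell0`).  `p = []`: `(u ⋆ pre k, ζ k) = (v, x₀) = (v ⋆ pre 0, ζ 0)`, INC for `v, u` and `0, k`.  `p ++ [x]`: the last edge is the edge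
of a step `k₁` of a cell `(u₁, x₀)`, `u₁ ∈ C` (`mem_EC'`, `mem_lf`).  `ed_eq`: either `v̂ ⋆ mk p = (u₁, x₀) ⋆ pre k₁`, `x = c k₁`; by induction
`mk p * (pre k₁)⁻¹ ∈ Hp`, and `mk (p ++ [x]) = (mk p * (pre k₁)⁻¹) * pre (k₁+1)`; `(u₁, x₀) ⋆ pre (k₁+1) = v̂ ⋆ mk (p ++ [x]) = (u, x₀) ⋆ pre k`, so
`pre (k₁+1) * (pre k)⁻¹ ∈ Hp` by INC.  Or `v̂ ⋆ mk p = (u₁, x₀) ⋆ pre (k₁+1)`, `x = bar (c k₁)`: the same with `k₁` and `k₁+1` exchanged.
(2) A generator `mk p * s * (mk p)⁻¹` with `v̂ ⋆ mk p = (u, x₀) ∈ Ĉ` has `mk p ∈ Hp` by (1) with `k = 0`. -/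
def StPTH : Prop := ∀ (α : Type) (r : FreeMonoid (α × Bool)) (Z : Cyc α) (Ω : Type) [MulAction (FreeGroup α) Ω]
  (X : Type) [LinearOrder X] [MulAction (FreeGroup α) X] (x₀ : X) (v : Ω) (C : Finset Ω) (ρ : Ω → ℕ),
  HU0 r Z X x₀ → Cm r Z v C ρ → Fl Z v C x₀ →
  (∀ p : List (α × Bool), InE (EL Z C x₀) (v, x₀) p → ∀ u ∈ C, ∀ k : ℤ,
    act (u, x₀) (pre Z.c k) = act (v, x₀) (FreeGroup.mk p) → FreeGroup.mk p * (pre Z.c k)⁻¹ ∈ Hp r Z) ∧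
  Nc Z (EL Z C x₀) (lf x₀ C) (v, x₀) ≤ Ns (Hp r Z) Z

/-- UPX (hypotheses CHW, EX2, FUL).  Unit positions have height `x₀`.  PROOF.  `k = i + a n` (`mod_nat`), so `sg i` is a unit and `ζ i = ζ k`.  By CHW (5) there is `l` with
`[wd l] = (sg i)⁻¹`.  The word `wd l ++ seg c 0 i` has the value `(sg i)⁻¹ sg i = 1` (CHW (1)), so `g := ch l * pre i ∈ NT` (`fTSC`).
EX2 with `G₀ = {g}`, `W₀ = {l}`: `u := v ⋆ ch l ∈ C`, `u ⋆ pre i = v ⋆ g = v`.  FUL gives `Fl`.  If `x₀ < ζ i` then `v̂ = (v, x₀) ∈ ZV` (by `u`, `i`), against `Fl.top`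
for the path `[]`.  So `ζ i = x₀` (`Hgt.low`). -/
def StUPX : Prop := ∀ (α : Type) (r : FreeMonoid (α × Bool)) (Z : Cyc α) (X : Type) [LinearOrder X]
  [MulAction (FreeGroup α) X] (x₀ : X), HU0 r Z X x₀ → ∀ k : ℤ, IsUnit (sg r Z k) → act x₀ (pre Z.c k) = x₀

/-- HFX (hypotheses CHW, EX2, FUL, UPX).  `H` fixes `x₀`.  PROOF.  The stabiliser of `x₀` is a subgroup, so let `h = pre j * (pre k)⁻¹`, `sg j = y sg k`, `y` a unit; it is enough that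
`ζ j = ζ k`.  `j = i + a n`, `k = i' + a' n`: `ζ j = ζ i`, `ζ k = ζ i'`, `sg i = y sg i'`.  CHW (5): `y = [wd l]` with unit positions `l`.  `g := pre i * (ch l * pre i')⁻¹ ∈ NT` by `fTSC`: the word
`seg c 0 i ++ invRev (wd l ++ seg c 0 i')` has the value `1` because `[seg c 0 i] = sg i = y sg i' = [wd l ++ seg c 0 i']` and `one_IM1` (for a right unit).
EX2 with `G₀ = {g}`, `W₀ = {l}`: `u := v ⋆ ch l ∈ C` and `v ⋆ pre i = u ⋆ pre i'`.  For every initial sublist `l'` of `l` the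
cell `(v ⋆ ch l', x₀)` is joined to `v̂` in `Ê`: induction (append at the end), `(v ⋆ ch l', x₀) ⋆ pre k₁ = (v ⋆ ch (l' ++ [k₁]), x₀)` by UPX (`k₁ ∈ l`), `Jn_cell0`.
So `(u, x₀) ⋆ pre i' = (u ⋆ pre i', ζ i')` and `v̂ ⋆ pre i = (v ⋆ pre i, ζ i)` are both joined to `v̂`.  If `ζ i < ζ i'` then the second one is in `ZV` (by `u, i'`); if
`ζ i' < ζ i` then the first one is in `ZV` (by `v, i`); both contradict `Fl.top`. -/
def StHFX : Prop := ∀ (α : Type) (r : FreeMonoid (α × Bool)) (Z : Cyc α) (X : Type) [LinearOrder X]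
  [MulAction (FreeGroup α) X] (x₀ : X), HU0 r Z X x₀ → ∀ h ∈ Hp r Z, act x₀ h = x₀

/-- LFQ (hypotheses CHW, HFX).  PROOF.  `Θ := F ⧸ Hp`, `o` the base point (`UT.act_coset_eq_EXZ`); `fGNH` gives `q` with `InE (CE Z o) o q`, `mk q = h`.  Let `t < q.length`,
`g_t := mk (q.take t)`.  The edge `ed (o ⋆ g_t) q[t]` is in `CE Z o` (`InE_iff`), so by `ed_eq` there is `j` with `o ⋆ g_t = o ⋆ pre j`, `q[t] = c j`, or
`o ⋆ g_t = o ⋆ pre (j+1)`, `q[t] = bar (c j)`.  In both cases there is `h_t ∈ Hp` with `g_t = h_t * pre j` or `g_t = h_t * pre (j+1)`, i.e.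
(`*`) for every `Ω' , y` : `ed (y ⋆ g_t) q[t] = ed ((y ⋆ h_t) ⋆ pre j) (c j)` (`ed_bar`, `pre_succ` in the second case).  `fHPV`: `h_t = mk w_t` with `[w_t]` a unit; CHW (5):
`[w_t] = [wd l_t]`; `d_t := h_t * (ch l_t)⁻¹ ∈ NT` (the word `w_t ++ invRev (wd l_t)` has the value `1`, `one_IM1`; `fTSC`).  `G₀ := {d_t}`, `W₀ := {l_t}` (images of
`Finset.range q.length`).  Let `Ω, v, C` be as in the statement: `v ⋆ h_t = v ⋆ (d_t * ch l_t) = v ⋆ ch l_t ∈ C`, and `x₀ ⋆ h_t = x₀` (HFX), so `v̂ ⋆ h_t ∈ Ĉ`, and by (`*`) for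
`y = v̂` the edge `ed (v̂ ⋆ g_t) q[t]` is in `Ê` (`EC_mem`, `lf_fix`).  So `InE Ê v̂ q` (`InE_iff`). -/
def StLFQ : Prop := ∀ (α : Type) (r : FreeMonoid (α × Bool)) (Z : Cyc α) (X : Type) [LinearOrder X]
  [MulAction (FreeGroup α) X] (x₀ : X), HU0 r Z X x₀ → ∀ h ∈ Hp r Z,
  ∃ (G₀ : Finset (FreeGroup α)) (W₀ : Finset (List ℕ)), (∀ g ∈ G₀, g ∈ NT r Z) ∧
    ∀ (Ω : Type) [MulAction (FreeGroup α) Ω] (v : Ω) (C : Finset Ω), (∀ u ∈ C, act u Z.s = u) →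
      (∀ l ∈ W₀, act v (ch Z l) ∈ C) → (∀ g ∈ G₀, act v g = v) →
      ∃ q : List (α × Bool), InE (EL Z C x₀) (v, x₀) q ∧ FreeGroup.mk q = h

/-- HNS (hypotheses EX2, FUL, PTH, HFX, LFQ).  PROOF.  Let `h ∈ Hp ∩ NT`.  LFQ gives `G₀, W₀`; EX2 with `insert h G₀`, `W₀` gives `Ω, v, C, ρ`; FUL gives `Fl`; LFQ gives a path `q` in
`Ê` from `v̂` with `mk q = h`; `v̂ ⋆ h = (v ⋆ h, x₀ ⋆ h) = (v, x₀)` (`h ∈ insert h G₀`, HFX).  `Fl.nc`: `h ∈ Nc Z Ê Ĉ v̂ ≤ Ns (Hp r Z) Z` (PTH (2)). -/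
def StHNS : Prop := ∀ (α : Type) (r : FreeMonoid (α × Bool)) (Z : Cyc α) (X : Type) [LinearOrder X]
  [MulAction (FreeGroup α) X] (x₀ : X), HU0 r Z X x₀ → ∀ h ∈ Hp r Z, h ∈ NT r Z → h ∈ Ns (Hp r Z) Z

end Pool.Agent.Helper84.OX
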